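import Pool.Agent.W_7d29a1_HM.Conv
import Pool.Agent.W_7d29a1_HK20.FinK20

/-!
MP_7d29a1_pr: the KPZ relation (hand-in N2, helper20's `main_K20` with the inputs of `FinK20`) for the objects of
`W_7d29a1_HM.ModelH`, without hypotheses. (helper96)
-/

set_option autoImplicit false

namespace Pool.Agent.W_7d29a1_HM

open MeasureTheory ProbabilityTheory Filter Topology
open Pool.Agent.W_7d29a1_h47 (walk endMGF)

/-- **THE KPZ RELATION.** -/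
theorem main_K {Ω : Type*} [MeasurableSpace Ω] (P : Measure Ω) [IsProbabilityMeasure P]
    (ω : ℕ × ℤ → Ω → ℝ) (hmeas : ∀ p, Measurable (ω p)) (hindep : iIndepFun ω P)
    (hident : ∀ p q, IdentDistrib (ω p) (ω q) P P) (hnc : ¬ ∃ c : ℝ, ∀ᵐ x ∂P, ω (0, 0) x = c)
    (hexp : ∀ b : ℝ, Integrable (fun x => Real.exp (b * ω (0, 0) x)) P) {β : ℝ} (hβ : 0 < β) :
    ∃ (lam : ℝ → ℝ) (σ : ℝ → ℕ → ℝ), Differentiable ℝ lam ∧
      (∀ h, ∀ᵐ x ∂P, Tendsto (fun n : ℕ => Real.log (endMGF β h (fun p => ω p x) n) / n) atTop (𝓝 (lam h))) ∧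
      (∀ h n, σ h n = Real.sqrt (Var[fun x => Real.log (fZ β h (fun p => ω p x) n); P])) ∧
      -- a dense set of forces
      (∃ T : Set ℝ, Dense T ∧ ∀ h ∈ T, ∃ c C : ℝ, 0 < c ∧
        (∀ r : ℝ, |r| ≤ 1 → c * r ^ 2 ≤ lam (h + r) - lam h - r * deriv lam h ∧
          lam (h + r) - lam h - r * deriv lam h ≤ C * r ^ 2) ∧
        (∀ᶠ n : ℕ in atTop,
          c * (n * σ h n) ≤
            ∫ x, fE β h (fun p => ω p x) n (fun s => |(walk s n : ℝ) - deriv lam h * n| ^ 2) ∂P ∧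
          ∫ x, fE β h (fun p => ω p x) n (fun s => mxv (deriv lam h) s ^ 2) ∂P ≤ C * (n * σ h n) ∧
          (n : ℝ) ^ (1 / 5 + c) ≤ σ h n ∧ σ h n ≤ (n : ℝ) ^ (1 / 2 - c)) ∧
        (∀ᶠ n : ℕ in atTop, ∀ R : ℝ, 1 ≤ R → 1 - ∫ x, fP β h (fun p => ω p x) n
          {s | mxv (deriv lam h) s ≤ R * Real.sqrt (n * σ h n)} ∂P ≤ C * Real.exp (-(c * R ^ c))) ∧
        (∀ ε : ℝ, 0 < ε → ∃ a : ℝ, 0 < a ∧ ∀ᶠ n : ℕ in atTop, ∫ x, fP β h (fun p => ω p x) n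
          {s | |(walk s n : ℝ) - deriv lam h * n| ≤ a * Real.sqrt (n * σ h n)} ∂P ≤ ε) ∧
        (∀ q : ℕ, ∃ a A : ℝ, 0 < a ∧ ∀ᶠ n : ℕ in atTop,
          a * Real.sqrt (n * σ h n) ^ q ≤
            ∫ x, fE β h (fun p => ω p x) n (fun s => |(walk s n : ℝ) - deriv lam h * n| ^ q) ∂P ∧
          ∫ x, fE β h (fun p => ω p x) n (fun s => mxv (deriv lam h) s ^ q) ∂P ≤ A * Real.sqrt (n * σ h n) ^ q) ∧
        2 * nuF P β h (deriv lam h) ω - 1 = limsup (fun n : ℕ => Real.log (σ h n) / Real.log n) atTop ∧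
        chiF P β h ω = liminf (fun n : ℕ => Real.log (σ h n) / Real.log n) atTop ∧
        1 / 5 + c ≤ chiF P β h ω ∧ chiF P β h ω ≤ 2 * nuF P β h (deriv lam h) ω - 1 ∧
        nuF P β h (deriv lam h) ω ≤ 3 / 4 - c) ∧
      -- almost every force
      (∀ᵐ h : ℝ, ∃ c C : ℝ, 0 < c ∧
        (∀ᶠ n : ℕ in atTop, ∫ x, fE β h (fun p => ω p x) n (fun s => mxv (deriv lam h) s ^ 2) ∂P ≤ C * (n * σ h n)) ∧
        2 * nuF P β h (deriv lam h) ω - 1 ≤ limsup (fun n : ℕ => Real.log (σ h n) / Real.log n) atTop ∧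
        1 / 5 + c ≤ chiF P β h ω ∧ nuF P β h (deriv lam h) ω ≤ 3 / 4 - c) ∧
      -- almost every velocity
      (∀ᵐ v : ℝ, ∀ h : ℝ, deriv lam h = v → ∃ c : ℝ, 0 < c ∧
        (∀ᶠ n : ℕ in atTop, c * (n * σ h n) ≤
          ∫ x, fE β h (fun p => ω p x) n (fun s => |(walk s n : ℝ) - v * n| ^ 2) ∂P) ∧
        chiF P β h ω ≤ 2 * nuF P β h v ω - 1 ∧ 3 / 5 + c ≤ nuF P β h v ω) := by
  simp only [bal_eq]
  simp only [fZ_eq, fE_eq, fP_eq, mxv_eq, nuF_eq, chiF_eq]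
  exact Pool.Agent.W_7d29a1_HK20.main_K20 (fun μ _ em nd => Pool.Agent.W_7d29a1_HK20.inp20 μ em nd) P ω hmeas hindep hident
    hnc hexp hβ (fun μ _ em nd hmp => Pool.Agent.W_7d29a1_HK20.end20 hmeas μ em nd hmp)

end Pool.Agent.W_7d29a1_HM
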