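import Pool.Agent.W_7d29a1_HM.ModelH
import Pool.Agent.W_7d29a1_HS.MaxM

/-!
The objects of `W_7d29a1_HM.ModelH` and the ones of the chain. (helper96)
-/

set_option autoImplicit false

namespace Pool.Agent.W_7d29a1_HM

open MeasureTheory ProbabilityTheory Filter Topology
open Pool.Agent.W_7d29a1_F Pool.Agent.W_7d29a1_HS
open Pool.Agent.W_7d29a1_h47 (walk energy forceP forceE)

theorem fZ_eq (β h : ℝ) (η : ℕ × ℤ → ℝ) (n : ℕ) : fZ β h η n = parZ β h η n := rfl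

theorem fE_eq (β h : ℝ) (η : ℕ × ℤ → ℝ) (n : ℕ) (G : (Fin n → Bool) → ℝ) : fE β h η n G = forceE β h η n G :=
  (forceE_eq β h η n G).symm

theorem fP_eq (β h : ℝ) (η : ℕ × ℤ → ℝ) (n : ℕ) (A : Set (Fin n → Bool)) : fP β h η n A = forceP β h η n A := by
  classical
  rw [forceP_eq]
  unfold fP fE
  congr 1
  refine Finset.sum_congr rfl fun s _ => ?_
  by_cases hs : s ∈ A
  · simp only [hs, if_true, one_mul]
  · simp only [hs, if_false, zero_mul]

theorem mxv_eq (v : ℝ) {n : ℕ} (s : Fin n → Bool) : mxv v s = mx v s := rfl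

theorem bal_eq (n : ℕ) (v r : ℝ) : {s : Fin n → Bool | mxv v s ≤ r} = bal n v r := by
  ext s
  exact mx_le_iff v s r

variable {Ω : Type*} [MeasurableSpace Ω]

theorem nuF_eq (P : Measure Ω) (β h v : ℝ) (ω : ℕ × ℤ → Ω → ℝ) : nuF P β h v ω = nuH P β h v ω := by
  unfold nuF nuH
  simp only [fP_eq, bal_eq]

theorem chiF_eq (P : Measure Ω) (β h : ℝ) (ω : ℕ × ℤ → Ω → ℝ) : chiF P β h ω = chiH P β h ω := rfl

end Pool.Agent.W_7d29a1_HM
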