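import Pool.Agent.W_7d29a1_HS.Main3

/-!
MP_7d29a1_pr, TRACK H: the free energy is `C ^ (1, b)` at every tilt (Legendre dual of `J_ge_pow`). (helper96)
-/

set_option autoImplicit false

namespace Pool.Agent.W_7d29a1_HM

open MeasureTheory ProbabilityTheory Filter Topology
open Pool.Agent.W_7d29a1_F Pool.Agent.W_7d29a1_h4g Pool.Agent.W_7d29a1_H Pool.Agent.W_7d29a1_HS
open Pool.Agent.W_7d29a1_h47 (Lam)

/-- The dual bound of a power. -/
theorem dual_pow96 {c K R y : ℝ} (hc : 0 < c) (hK : 1 < K) (hR : 0 ≤ R) (hy : 0 ≤ y) :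
    R * y - c * y ^ K ≤ (1 / c) ^ (1 / (K - 1)) * R ^ (1 + 1 / (K - 1)) := by
  have hK1 : 0 < K - 1 := by linarith
  have hb : 0 < 1 / (K - 1) := by positivity
  have hrhs : 0 ≤ (1 / c) ^ (1 / (K - 1)) * R ^ (1 + 1 / (K - 1)) := by positivity
  rcases eq_or_lt_of_le hy with h0 | h0
  · rw [← h0, Real.zero_rpow (by linarith)]
    linarith
  have hyK : y ^ K = y * y ^ (K - 1) := by
    rw [Real.rpow_sub_one h0.ne']
    field_simp
  rcases le_or_gt R (c * y ^ (K - 1)) with h1 | h1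
  · refine le_trans ?_ hrhs
    rw [hyK]
    nlinarith
  · have hR0 : 0 < R := lt_of_le_of_lt (by positivity) h1
    have h2 : y ^ (K - 1) ≤ 1 / c * R := by
      rw [div_mul_eq_mul_div, one_mul, le_div_iff₀ hc]
      linarith
    have h3 : y ≤ (1 / c * R) ^ (1 / (K - 1)) := by
      have h4 := Real.rpow_le_rpow (Real.rpow_nonneg hy _) h2 hb.le
      rw [← Real.rpow_mul hy, mul_one_div_cancel hK1.ne', Real.rpow_one] at h4
      exact h4
    have h5 : 0 ≤ c * y ^ K := by positivity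
    calc R * y - c * y ^ K ≤ R * y := by linarith
      _ ≤ R * (1 / c * R) ^ (1 / (K - 1)) := mul_le_mul_of_nonneg_left h3 hR
      _ = (1 / c) ^ (1 / (K - 1)) * R ^ (1 + 1 / (K - 1)) := by
          rw [Real.mul_rpow (by positivity) hR, Real.rpow_add hR0, Real.rpow_one]
          ring

variable {μ : Measure ℝ} [IsProbabilityMeasure μ] {s c C : ℝ} {n₀ : ℕ}

/-- **The excess of the free energy is at most a power with an exponent larger than one.** -/
theorem ex_pow96 (h : In μ s c C n₀) : ∃ b K : ℝ, 0 < b ∧ 0 < K ∧ ∀ r : ℝ, |r| ≤ 1 → ex μ s r ≤ K * |r| ^ (1 + b) := by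
  obtain ⟨c', K, hc', hK, hJ⟩ := J_ge_pow h
  obtain ⟨K₂, hK₂⟩ : ∃ K₂ : ℝ, K₂ = max K 2 := ⟨_, rfl⟩
  have h1 : K ≤ K₂ := by rw [hK₂]; exact le_max_left _ _
  have h2 : 2 ≤ K₂ := by rw [hK₂]; exact le_max_right _ _
  have hK1 : 0 < K₂ - 1 := by linarith
  refine ⟨1 / (K₂ - 1), (1 / c') ^ (1 / (K₂ - 1)), by positivity, by positivity, fun r hr => ?_⟩
  obtain ⟨x, hx⟩ : ∃ x : ℝ, x = sl μ (s + r) - sl μ s := ⟨_, rfl⟩
  have m1 := sl_mem h.em h.nd (s + r)
  have m2 := sl_mem h.em h.nd s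
  have hx1 : |x| ≤ 1 := by
    rw [hx, abs_le]
    constructor <;> linarith [m1.1, m1.2, m2.1, m2.2]
  have h3 : J μ s x ≤ r * x - ex μ s r := by
    refine J_le fun r' _ => ?_
    have h4 := ex_nonneg h.em h.nd (s + r) (r' - r)
    have e1 : s + r + (r' - r) = s + r' := by ring
    unfold ex at h4 ⊢
    rw [e1] at h4
    rw [hx]
    linarith
  have h4 := hJ x hx1
  have h5 : c' * |x| ^ K₂ ≤ c' * |x| ^ K := by
    refine mul_le_mul_of_nonneg_left ?_ hc'.le
    rcases eq_or_lt_of_le (abs_nonneg x) with h0 | h0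
    · rw [← h0, Real.zero_rpow hK.ne', Real.zero_rpow (by linarith)]
    · exact Real.rpow_le_rpow_of_exponent_ge h0 hx1 h1
  have h6 : r * x ≤ |r| * |x| := by
    rw [← abs_mul]
    exact le_abs_self _
  have h7 := dual_pow96 (c := c') (K := K₂) (R := |r|) (y := |x|) hc' (by linarith) (abs_nonneg _) (abs_nonneg _)
  linarith

end Pool.Agent.W_7d29a1_HM
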