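import Pool.Agent.W_7d29a1_HM.Conv
import Pool.Agent.W_7d29a1_HN.Main5
import Pool.Agent.W_7d29a1_HN.NPMain
import Pool.Agent.W_7d29a1_HR.TailsP
import Pool.Agent.W_7d29a1_HR.Law
import Pool.Agent.W_7d29a1_HE.Ei
import Pool.Agent.W_7d29a1_HX.XA_Leaves
import Pool.Agent.W_7d29a1_HS.InAll

/-!
MP_7d29a1_pr, TRACK H: THE SCALING LAW AT EVERY FORCE for the objects of `W_7d29a1_HM.ModelH` (hand-in N3), without hypotheses.
(helper96)
-/

set_option autoImplicit false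

namespace Pool.Agent.W_7d29a1_HM

open MeasureTheory ProbabilityTheory Filter Topology
open Pool.Agent.W_7d29a1_HS
open Pool.Agent.W_7d29a1_h47 (walk endP)

/-- **THE SCALING LAW AT EVERY FORCE.** -/
theorem main_F {Ω : Type*} [MeasurableSpace Ω] (P : Measure Ω) [IsProbabilityMeasure P]
    (ω : ℕ × ℤ → Ω → ℝ) (hmeas : ∀ p, Measurable (ω p)) (hindep : iIndepFun ω P)
    (hident : ∀ p q, IdentDistrib (ω p) (ω q) P P) (hnc : ¬ ∃ c : ℝ, ∀ᵐ x ∂P, ω (0, 0) x = c)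
    (hexp : ∀ b : ℝ, Integrable (fun x => Real.exp (b * ω (0, 0) x)) P) {β : ℝ} (hβ : 0 < β) :
    ∃ (lam J : ℝ → ℝ) (F : ℝ), Differentiable ℝ lam ∧ lam 0 = 0 ∧ deriv lam 0 = 0 ∧
      -- the free energy and the rate function of the end point
      (∀ h, ∀ᵐ x ∂P, Tendsto (fun n : ℕ => Real.log (fZ β h (fun p => ω p x) n) / n) atTop (𝓝 (F + lam h))) ∧
      (∀ v, |v| < 1 → ∀ y : ℕ → ℤ, (∀ n, (y n - n) % 2 = 0) → Tendsto (fun n : ℕ => (y n : ℝ) / n) atTop (𝓝 v) →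
        ∀ᵐ x ∂P, Tendsto (fun n : ℕ => -Real.log (endP β (fun p => ω p x) n (y n)) / n) atTop (𝓝 (J v))) ∧
      (∀ v, |v| < 1 → IsLUB (Set.range fun h => h * v - lam h) (J v)) ∧
      ∀ h : ℝ, ∃ (v : ℝ) (I : ℝ → ℝ) (σ w : ℕ → ℝ) (c C : ℝ) (n₁ : ℕ), 0 < c ∧ v = deriv lam h ∧ |v| < 1 ∧
        -- the rate function around the velocity `v`
        (∀ u, I u = J (v + u) - J v - h * u) ∧
        (∀ u, |u| < 1 → |v + u| < 1 → c * |u| ^ C ≤ I u) ∧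
        (∀ u, |u| ≤ c → I u ≤ C * |u| ^ (1 + c) ∧ I (-u) ≤ C * I u) ∧
        (∀ u R : ℝ, 1 ≤ R → |R * u| ≤ c → c * R ^ (1 + c) * I u ≤ I (R * u) ∧ I (R * u) ≤ C * R ^ C * I u) ∧
        (∀ k, |k| ≤ c → lam (h + k) - lam h - k * v ≤ C * |k| ^ (1 + c)) ∧
        -- the standard deviation and the width
        (∀ n, σ n = Real.sqrt (Var[fun x => Real.log (fZ β h (fun p => ω p x) n); P])) ∧
        (∀ n, w n = sSup {r : ℝ | 0 ≤ r ∧ r < (1 - |v|) * n ∧ n * I (r / n) ≤ σ n}) ∧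
        (∀ᶠ n : ℕ in atTop, (n : ℝ) ^ c ≤ σ n ∧ σ n ≤ (n : ℝ) ^ (1 / 2 - c) ∧
          (n : ℝ) ^ (1 / 3 + c) ≤ w n ∧ w n ≤ (n : ℝ) ^ (1 - c) ∧
          n * I (w n / n) = σ n ∧ (n : ℝ) ^ (1 + c) ≤ w n * σ n ^ 2 ∧ (n : ℝ) ^ c * σ n ≤ w n ∧
          c * σ n ≤ n * (F + lam h) - ∫ x, Real.log (fZ β h (fun p => ω p x) n) ∂P ∧
          n * (F + lam h) - ∫ x, Real.log (fZ β h (fun p => ω p x) n) ∂P ≤ C * σ n ∧
          c * σ n ≤ ∫ x, Real.log (fZ β h (fun p => ω p x) (2 * n)) ∂P -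
            2 * ∫ x, Real.log (fZ β h (fun p => ω p x) n) ∂P) ∧
        (∀ m n : ℕ, n₁ ≤ m → m ≤ n →
          c * ((n : ℝ) / m) ^ c * σ m ≤ σ n ∧ σ n ≤ C * ((n : ℝ) / m) ^ (1 / 2 - c) * σ m ∧
          c * ((n : ℝ) / m) ^ c * w m ≤ w n ∧ w n ≤ C * ((n : ℝ) / m) ^ (1 - c) * w m ∧
          c * ((n : ℝ) / m) ^ (1 + c) * (w m * σ m ^ 2) ≤ w n * σ n ^ 2) ∧
        -- the fluctuations of the free energy
        (∀ᶠ n : ℕ in atTop, ∀ s : ℝ, 0 ≤ s →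
          P.real {x | s * σ n ≤ |Real.log (fZ β h (fun p => ω p x) n) - ∫ y, Real.log (fZ β h (fun p => ω p y) n) ∂P|} ≤
            C * Real.exp (-(c * s ^ c))) ∧
        (∀ᶠ n : ℕ in atTop, ∀ s : ℝ, 1 ≤ s → s ≤ (n : ℝ) ^ c →
          Real.exp (-(C * s ^ C)) ≤ P.real {x | s * σ n ≤
            Real.log (fZ β h (fun p => ω p x) n) - ∫ y, Real.log (fZ β h (fun p => ω p y) n) ∂P} ∧
          Real.exp (-(C * s ^ C)) ≤ P.real {x | Real.log (fZ β h (fun p => ω p x) n) -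
            ∫ y, Real.log (fZ β h (fun p => ω p y) n) ∂P ≤ -(s * σ n)}) ∧
        -- the fluctuations of the path around the line of velocity `v`
        (∀ᶠ n : ℕ in atTop, ∀ R : ℝ, 1 ≤ R →
          1 - ∫ x, fP β h (fun p => ω p x) n {s | mxv v s ≤ R * w n} ∂P ≤ C * Real.exp (-(c * R ^ c))) ∧
        (∀ ε : ℝ, 0 < ε → ∃ a : ℝ, 0 < a ∧ ∀ᶠ n : ℕ in atTop,
          ∫ x, fP β h (fun p => ω p x) n {s | |(walk s n : ℝ) - v * n| ≤ a * w n} ∂P ≤ ε) ∧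
        (∀ q : ℕ, ∃ a A : ℝ, 0 < a ∧ ∀ᶠ n : ℕ in atTop,
          a * w n ^ q ≤ ∫ x, fE β h (fun p => ω p x) n (fun s => |(walk s n : ℝ) - v * n| ^ q) ∂P ∧
          ∫ x, fE β h (fun p => ω p x) n (fun s => mxv v s ^ q) ∂P ≤ A * w n ^ q) ∧
        -- the exponents
        nuF P β h v ω = limsup (fun n : ℕ => Real.log (w n) / Real.log n) atTop ∧
        chiF P β h ω = liminf (fun n : ℕ => Real.log (σ n) / Real.log n) atTop ∧
        1 / 3 + c ≤ liminf (fun n : ℕ => Real.log (w n) / Real.log n) atTop ∧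
        liminf (fun n : ℕ => Real.log (w n) / Real.log n) atTop ≤ nuF P β h v ω ∧ nuF P β h v ω ≤ 1 - c ∧
        c ≤ chiF P β h ω ∧ chiF P β h ω ≤ limsup (fun n : ℕ => Real.log (σ n) / Real.log n) atTop ∧
        limsup (fun n : ℕ => Real.log (σ n) / Real.log n) atTop ≤ 1 / 2 - c ∧
        1 + c ≤ 2 * chiF P β h ω + nuF P β h v ω ∧
        1 + c ≤ 2 * limsup (fun n : ℕ => Real.log (σ n) / Real.log n) atTop +
          liminf (fun n : ℕ => Real.log (w n) / Real.log n) atTop ∧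
        ∀ κ : ℝ, Tendsto (fun u : ℝ => Real.log (I u) / Real.log u) (𝓝[>] 0) (𝓝 κ) →
          limsup (fun n : ℕ => Real.log (σ n) / Real.log n) atTop = 1 - κ * (1 - nuF P β h v ω) ∧
          chiF P β h ω = 1 - κ * (1 - liminf (fun n : ℕ => Real.log (w n) / Real.log n) atTop) ∧
          (2 * κ - 1 + c) / (2 * κ + 1) ≤ liminf (fun n : ℕ => Real.log (w n) / Real.log n) atTop ∧
          nuF P β h v ω ≤ 1 - (1 / 2 + c) / κ := by
  simp only [bal_eq]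
  simp only [fZ_eq, fE_eq, fP_eq, mxv_eq, nuF_eq, chiF_eq]
  exact Pool.Agent.W_7d29a1_HN.main_H5 (fun μ _ h1 h2 s => in_tilt h1 h2 s)
    (fun μ _ s c C n₀ h => Pool.Agent.W_7d29a1_HN.np_main h) (fun μ _ s c C n₀ h => Pool.Agent.W_7d29a1_HX.XA.super_tilt_two h)
    P ω hmeas hindep hident hnc hexp hβ
    (fun μ _ h c C n₀ hI hmp => Pool.Agent.W_7d29a1_HR.tails_P hI hmp)
    (fun μ _ h c C n₀ hI hmp => Pool.Agent.W_7d29a1_HR.nonrand_P hI hmp)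
    (fun μ _ h c C n₀ hI hmp ε hε => Pool.Agent.W_7d29a1_HE.endS_P hI hmeas hmp hε)
    (fun μ _ h c C n₀ hI hmp q => Pool.Agent.W_7d29a1_HE.endM_P hI hmeas hmp q)

end Pool.Agent.W_7d29a1_HM
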