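import Mathlib

/-!
MP_7d29a1_pr, N1 with the second storey of STORM Z, at every force: pure lemmas. (helper96)
-/

set_option autoImplicit false

namespace Pool.Agent.W_7d29a1_HM

open Filter Topology

/-- Constants are absorbed by a power of the variable. -/
theorem rpow_absorb96 {K p q : ℝ} (hK : 0 < K) (hpq : q < p) : ∃ v₁ : ℝ, 0 < v₁ ∧ v₁ ≤ 1 ∧ ∀ v : ℝ, 0 < v → v ≤ v₁ →
    K * v ^ p ≤ v ^ q := by
  have hd : 0 < p - q := by linarith
  refine ⟨min 1 ((1 / K) ^ (1 / (p - q))), lt_min one_pos (by positivity), min_le_left _ _, fun v hv hv1 => ?_⟩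
  have h1 : v ≤ (1 / K) ^ (1 / (p - q)) := hv1.trans (min_le_right _ _)
  have h2 : v ^ (p - q) ≤ 1 / K := by
    calc v ^ (p - q) ≤ ((1 / K) ^ (1 / (p - q))) ^ (p - q) := Real.rpow_le_rpow hv.le h1 hd.le
      _ = 1 / K := by rw [← Real.rpow_mul (by positivity), one_div_mul_cancel hd.ne', Real.rpow_one]
  have e1 : v ^ p = v ^ (p - q) * v ^ q := by
    rw [← Real.rpow_add hv]
    congr 1
    ring
  rw [e1]
  have h3 : K * v ^ (p - q) ≤ 1 := by
    rw [le_div_iff₀ hK] at h2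
    linarith
  calc K * (v ^ (p - q) * v ^ q) = K * v ^ (p - q) * v ^ q := by ring
    _ ≤ 1 * v ^ q := mul_le_mul_of_nonneg_right h3 (Real.rpow_nonneg hv.le _)
    _ = v ^ q := one_mul _

/-- The inferior limits of two sequences with a linear inequality. -/
theorem liminf_lin96 {x y : ℕ → ℝ} {p q : ℝ} (hp : 0 < p) (hx : IsBoundedUnder (· ≥ ·) atTop x)
    (hy : IsCoboundedUnder (· ≥ ·) atTop y) (h : ∀ᶠ n in atTop, p * x n + q ≤ y n) :
    p * liminf x atTop + q ≤ liminf y atTop := by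
  refine le_of_forall_pos_le_add fun ε hε => ?_
  have h1 : ∀ᶠ n in atTop, liminf x atTop - ε / p < x n :=
    eventually_lt_of_lt_liminf (by linarith [show 0 < ε / p by positivity]) hx
  have h2 : p * liminf x atTop + q - ε ≤ liminf y atTop := by
    refine le_liminf_of_le hy ?_
    filter_upwards [h, h1] with n g1 g2
    have g3 := mul_lt_mul_of_pos_left g2 hp
    have e : p * (liminf x atTop - ε / p) = p * liminf x atTop - ε := by field_simp
    rw [e] at g3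
    linarith
  linarith

/-- The rate function from the width and the standard deviation. -/
theorem I_upper96 {w σ : ℕ → ℝ} {I : ℝ → ℝ} {a b k c : ℝ} {n₁ : ℕ} (ha : 0 < a) (hk : 0 < k) (hb : 0 ≤ b) (hc : 0 < c)
    (hI0 : I 0 = 0) (hreg : ∀ m n : ℕ, n₁ ≤ m → m ≤ n → k * ((n : ℝ) / m) ^ b * w m ≤ w n)
    (hlim : Tendsto (fun n : ℕ => w n / n) atTop (𝓝 0))
    (hsc : ∀ᶠ n : ℕ in atTop, n * I (w n / n) = σ n ∧ (n : ℝ) ^ (1 / 2 + a) ≤ w n ∧
      (n : ℝ) ^ (1 / 2 + a) * σ n ≤ w n ^ (3 / 2 : ℝ))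
    (hmono : ∀ u R : ℝ, 1 ≤ R → |R * u| ≤ c → c * I u ≤ I (R * u))
    (hneg : ∀ u : ℝ, 0 < u → u ≤ c → c * I (-u) ≤ I u) :
    ∃ K v₀ : ℝ, 0 < K ∧ 0 < v₀ ∧ ∀ u : ℝ, |u| ≤ v₀ → I u ≤ K * |u| ^ (3 / 2 + 2 * a) := by
  -- all large lengths
  have hcone : ∀ᶠ n : ℕ in atTop, w n / n ≤ c := (hlim.eventually (gt_mem_nhds hc)).mono fun n hn => le_of_lt hn
  obtain ⟨n₂, hn₂⟩ := eventually_atTop.1 (hsc.and hcone)
  obtain ⟨N, hN⟩ : ∃ N : ℕ, N = n₁ + n₂ + 1 := ⟨_, rfl⟩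
  have hN1 : 1 ≤ N := by omega
  have hpos : ∀ n : ℕ, N ≤ n → 0 < w n := fun n hn => by
    have h0 : (0 : ℝ) < n := by
      have : 0 < n := by omega
      exact_mod_cast this
    exact lt_of_lt_of_le (Real.rpow_pos_of_pos h0 _) (hn₂ n (by omega)).1.2.1
  have hvp : ∀ n : ℕ, N ≤ n → 0 < w n / n := fun n hn => by
    have h0 : (0 : ℝ) < n := by
      have : 0 < n := by omega
      exact_mod_cast this
    exact div_pos (hpos n hn) h0
  -- positive arguments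
  have key : ∀ u : ℝ, 0 < u → u ≤ w N / N → c * I u ≤ (2 / k) ^ (3 / 2 + 2 * a) * u ^ (3 / 2 + 2 * a) := by
    intro u hu0 hu
    have hex : ∃ m : ℕ, w (N + m) / ((N + m : ℕ) : ℝ) < u := by
      have h1 := (hlim.eventually (gt_mem_nhds hu0)).and (eventually_ge_atTop N)
      obtain ⟨m, hm1, hm2⟩ := h1.exists
      exact ⟨m - N, by rw [Nat.add_sub_cancel' hm2]; exact hm1⟩
    classical
    obtain ⟨m, hm, hmin⟩ : ∃ m : ℕ, w (N + m) / ((N + m : ℕ) : ℝ) < u ∧ ∀ j < m, ¬ w (N + j) / ((N + j : ℕ) : ℝ) < u :=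
      ⟨Nat.find hex, Nat.find_spec hex, fun j hj => Nat.find_min hex hj⟩
    have hm0 : m ≠ 0 := by
      rintro rfl
      rw [add_zero] at hm
      linarith
    obtain ⟨j, rfl⟩ : ∃ j, m = j + 1 := ⟨m - 1, by omega⟩
    have hj := not_lt.1 (hmin j (by omega))
    obtain ⟨n, hn⟩ : ∃ n : ℕ, n = N + j := ⟨_, rfl⟩
    rw [← hn] at hj
    have hn' : N + (j + 1) = n + 1 := by omega
    rw [hn'] at hm
    have hnN : N ≤ n := by omega
    have hn0 : (0 : ℝ) < n := by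
      have : 0 < n := by omega
      exact_mod_cast this
    have hn1 : (1 : ℝ) ≤ n := by
      have : 1 ≤ n := by omega
      exact_mod_cast this
    obtain ⟨⟨g0, g1, g2⟩, g3⟩ := hn₂ n (by omega)
    -- the widths of `n` and `n + 1`
    have h3 : k * w n ≤ w (n + 1) := by
      have h4 := hreg n (n + 1) (by omega) (by omega)
      refine le_trans ?_ h4
      have h5 : (1 : ℝ) ≤ (((n + 1 : ℕ) : ℝ) / n) ^ b := by
        refine Real.one_le_rpow ?_ hb
        rw [le_div_iff₀ hn0, one_mul]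
        push_cast
        linarith
      calc k * w n = k * 1 * w n := by ring
        _ ≤ k * (((n + 1 : ℕ) : ℝ) / n) ^ b * w n :=
          mul_le_mul_of_nonneg_right (mul_le_mul_of_nonneg_left h5 hk.le) (hpos n hnN).le
    obtain ⟨v, hv⟩ : ∃ v : ℝ, v = w n / n := ⟨_, rfl⟩
    have hv0 : 0 < v := by rw [hv]; exact hvp n hnN
    rw [← hv] at hj g0 g3
    have hwv : w n = v * n := by rw [hv, div_mul_cancel₀ _ hn0.ne']
    have h7 : v ≤ 2 / k * u := by
      have hn1' : (0 : ℝ) < ((n + 1 : ℕ) : ℝ) := by positivity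
      rw [div_lt_iff₀ hn1'] at hm
      have h8 : k * (v * n) ≤ u * (2 * n) := by
        rw [← hwv]
        refine h3.trans (hm.le.trans (mul_le_mul_of_nonneg_left ?_ hu0.le))
        push_cast
        linarith
      have h10 : k * v ≤ 2 * u := by
        have h11 : k * v * n ≤ 2 * u * n := by linarith
        exact le_of_mul_le_mul_right h11 hn0
      rw [div_mul_eq_mul_div, le_div_iff₀ hk]
      linarith
    -- the cost at the scale `n`
    have h11 : c * I u ≤ I v := by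
      have e : v / u * u = v := div_mul_cancel₀ _ hu0.ne'
      have h12 := hmono u (v / u) (by rw [le_div_iff₀ hu0, one_mul]; exact hj) (by rw [e, abs_of_pos hv0]; exact g3)
      rwa [e] at h12
    rw [hwv] at g1 g2
    have h13 : (n : ℝ) ^ (1 / 2 + a) * (n * I v) ≤ (v * n) ^ (3 / 2 : ℝ) := by rw [g0]; exact g2
    have h14 : I v ≤ v ^ (3 / 2 : ℝ) * (n : ℝ) ^ (-a) := by
      have e1 : (v * n) ^ (3 / 2 : ℝ) = (v ^ (3 / 2 : ℝ) * (n : ℝ) ^ (-a)) * ((n : ℝ) ^ (1 / 2 + a) * n) := by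
        rw [Real.mul_rpow hv0.le hn0.le]
        have e2 : (n : ℝ) ^ (3 / 2 : ℝ) = (n : ℝ) ^ (-a) * ((n : ℝ) ^ (1 / 2 + a) * n) := by
          nth_rewrite 4 [← Real.rpow_one (n : ℝ)]
          rw [← Real.rpow_add hn0, ← Real.rpow_add hn0]
          congr 1
          ring
        rw [e2]
        ring
      rw [e1] at h13
      have h15 : I v * ((n : ℝ) ^ (1 / 2 + a) * n) ≤ (v ^ (3 / 2 : ℝ) * (n : ℝ) ^ (-a)) * ((n : ℝ) ^ (1 / 2 + a) * n) := by
        refine le_trans (le_of_eq ?_) h13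
        ring
      exact le_of_mul_le_mul_right h15 (mul_pos (Real.rpow_pos_of_pos hn0 _) hn0)
    -- `n ^ (- 1 / 2) ≤ v`
    have h16 : (n : ℝ) ^ (-(1 / 2) : ℝ) ≤ v := by
      have e1 : (n : ℝ) ^ (-(1 / 2) : ℝ) = (n : ℝ) ^ (1 / 2 : ℝ) / n := by
        rw [eq_div_iff hn0.ne']
        nth_rewrite 2 [← Real.rpow_one (n : ℝ)]
        rw [← Real.rpow_add hn0]
        norm_num
      rw [e1, div_le_iff₀ hn0]
      exact (Real.rpow_le_rpow_of_exponent_le hn1 (by linarith)).trans g1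
    have h17 : (n : ℝ) ^ (-a) ≤ v ^ (2 * a) := by
      have h18 := Real.rpow_le_rpow (Real.rpow_nonneg hn0.le _) h16 (show 0 ≤ 2 * a by positivity)
      rw [← Real.rpow_mul hn0.le] at h18
      refine le_trans (le_of_eq ?_) h18
      congr 1
      ring
    have h19 : I v ≤ v ^ (3 / 2 + 2 * a) := by
      rw [Real.rpow_add hv0]
      exact h14.trans (mul_le_mul_of_nonneg_left h17 (Real.rpow_nonneg hv0.le _))
    refine h11.trans (h19.trans ?_)
    rw [← Real.mul_rpow (by positivity) hu0.le]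
    exact Real.rpow_le_rpow hv0.le h7 (by positivity)
  refine ⟨(2 / k) ^ (3 / 2 + 2 * a) / c + (2 / k) ^ (3 / 2 + 2 * a) / c ^ 2, min (w N / N) c, by positivity,
    lt_min (hvp N le_rfl) hc, fun u hu => ?_⟩
  have hu1 : |u| ≤ w N / N := hu.trans (min_le_left _ _)
  have hu2 : |u| ≤ c := hu.trans (min_le_right _ _)
  have hX : 0 < (2 / k) ^ (3 / 2 + 2 * a) := by positivity
  rcases lt_trichotomy u 0 with h0 | h0 | h0
  · have hu0 : 0 < -u := by linarith
    rw [abs_of_neg h0] at hu1 hu2 ⊢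
    have h1 := key (-u) hu0 hu1
    have h2 := hneg (-u) hu0 hu2
    rw [neg_neg] at h2
    have hU : 0 ≤ (-u) ^ (3 / 2 + 2 * a) := Real.rpow_nonneg hu0.le _
    have h3 : c ^ 2 * I u ≤ (2 / k) ^ (3 / 2 + 2 * a) * (-u) ^ (3 / 2 + 2 * a) := by
      calc c ^ 2 * I u = c * (c * I u) := by ring
        _ ≤ c * I (-u) := mul_le_mul_of_nonneg_left h2 hc.le
        _ ≤ _ := h1
    have h4 : I u ≤ (2 / k) ^ (3 / 2 + 2 * a) / c ^ 2 * (-u) ^ (3 / 2 + 2 * a) := by
      rw [div_mul_eq_mul_div, le_div_iff₀ (by positivity)]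
      linarith
    refine h4.trans (mul_le_mul_of_nonneg_right ?_ hU)
    have : 0 < (2 / k) ^ (3 / 2 + 2 * a) / c := by positivity
    linarith
  · rw [h0, hI0, abs_zero]
    positivity
  · rw [abs_of_pos h0] at hu1 ⊢
    have h1 := key u h0 hu1
    have hU : 0 ≤ u ^ (3 / 2 + 2 * a) := Real.rpow_nonneg h0.le _
    have h4 : I u ≤ (2 / k) ^ (3 / 2 + 2 * a) / c * u ^ (3 / 2 + 2 * a) := by
      rw [div_mul_eq_mul_div, le_div_iff₀ hc]
      linarith
    refine h4.trans (mul_le_mul_of_nonneg_right ?_ hU)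
    have : 0 < (2 / k) ^ (3 / 2 + 2 * a) / c ^ 2 := by positivity
    linarith

/-- The dual function from the rate function. -/
theorem dual_lower96 {L I : ℝ → ℝ} {K v₀ b : ℝ} (hK : 0 < K) (hv₀ : 0 < v₀) (hb : 0 < b)
    (hL : ∀ k u : ℝ, |u| ≤ v₀ → k * u - I u ≤ L k) (hI : ∀ u, |u| ≤ v₀ → I u ≤ K * |u| ^ (3 / 2 + b)) :
    ∃ q h₀ : ℝ, 0 < q ∧ 0 < h₀ ∧ ∀ h : ℝ, |h| ≤ h₀ → q * |h| ^ (1 + 1 / (1 / 2 + b)) ≤ L h := by
  have hp : 0 < 1 / 2 + b := by positivity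
  refine ⟨1 / 2 * (1 / (2 * K)) ^ (1 / (1 / 2 + b)), 2 * K * v₀ ^ (1 / 2 + b), by positivity, by positivity, fun h hh => ?_⟩
  obtain ⟨u, hu⟩ : ∃ u : ℝ, u = (|h| / (2 * K)) ^ (1 / (1 / 2 + b)) := ⟨_, rfl⟩
  have hq0 : 0 ≤ |h| / (2 * K) := by positivity
  have hu0 : 0 ≤ u := by rw [hu]; positivity
  have hup : u ^ (1 / 2 + b) = |h| / (2 * K) := by
    rw [hu, ← Real.rpow_mul hq0, one_div_mul_cancel hp.ne', Real.rpow_one]
  have huv : u ≤ v₀ := by
    have h1 : |h| / (2 * K) ≤ v₀ ^ (1 / 2 + b) := by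
      rw [div_le_iff₀ (by positivity)]
      linarith
    rw [hu]
    calc (|h| / (2 * K)) ^ (1 / (1 / 2 + b)) ≤ (v₀ ^ (1 / 2 + b)) ^ (1 / (1 / 2 + b)) :=
          Real.rpow_le_rpow hq0 h1 (by positivity)
      _ = v₀ := by rw [← Real.rpow_mul hv₀.le, mul_one_div_cancel hp.ne', Real.rpow_one]
  -- the displacement of the sign of `h`
  obtain ⟨v, hv, hhv⟩ : ∃ v : ℝ, |v| = u ∧ h * v = |h| * u := by
    rcases le_total 0 h with h0 | h0
    · exact ⟨u, abs_of_nonneg hu0, by rw [abs_of_nonneg h0]⟩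
    · exact ⟨-u, by rw [abs_neg, abs_of_nonneg hu0], by rw [abs_of_nonpos h0]; ring⟩
  have h1 : h * v - I v ≤ L h := hL h v (by rw [hv]; exact huv)
  have h2 := hI v (by rw [hv]; exact huv)
  rw [hhv] at h1
  rw [hv] at h2
  have e1 : u ^ (3 / 2 + b) = u * (|h| / (2 * K)) := by
    rcases eq_or_lt_of_le hu0 with h3 | h3
    · rw [← h3, Real.zero_rpow (by positivity), zero_mul]
    · have e2 : (3 / 2 + b : ℝ) = 1 + (1 / 2 + b) := by ring
      rw [e2, Real.rpow_add h3, Real.rpow_one, hup]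
  rw [e1] at h2
  have e3 : K * (u * (|h| / (2 * K))) = 1 / 2 * (|h| * u) := by field_simp
  rw [e3] at h2
  have e4 : 1 / 2 * (1 / (2 * K)) ^ (1 / (1 / 2 + b)) * |h| ^ (1 + 1 / (1 / 2 + b)) = 1 / 2 * (|h| * u) := by
    rcases eq_or_lt_of_le (abs_nonneg h) with h3 | h3
    · rw [← h3, Real.zero_rpow (by positivity)]
      ring
    · rw [hu, Real.rpow_add h3, Real.rpow_one, div_eq_mul_one_div |h| (2 * K), Real.mul_rpow h3.le (by positivity)]
      ring
  rw [e4]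
  linarith

end Pool.Agent.W_7d29a1_HM
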