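import Mathlib

/-!
MP_7d29a1_pr, N1 with the second storey of STORM Z, at every force: from the growth of the width and the unit between two lengths
to the growth of the moments. Pure lemmas. (helper96)
-/

set_option autoImplicit false

namespace Pool.Agent.W_7d29a1_HM

open Filter Topology

/-- THE SECOND STOREY: the growth of the width `w` and of the unit `E` between `m` and `n ≥ m ^ (1 + η)`. -/
def QRel (w E : ℕ → ℝ) (a : ℝ) : Prop :=
  ∀ η : ℝ, 0 < η → ∃ m₀ : ℕ, ∀ m n : ℕ, m₀ ≤ m → (m : ℝ) ^ (1 + η) ≤ n →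
    ((n : ℝ) / m) ^ (1 / 2 + a) ≤ w n / w m ∧
    ((n : ℝ) / m) ^ (1 / 2 + a) * (E n / E m) ≤ (w n / w m) ^ (3 / 2 : ℝ) ∧
    ((n : ℝ) / m) ^ (1 / 4 + a) * (E n / E m) ≤ w n / w m

/-- A power absorbs constants. -/
theorem absorb96 {b b' K : ℝ} (hK : 0 < K) (h : b' < b) : ∀ᶠ n : ℕ in atTop, (n : ℝ) ^ b' ≤ K * (n : ℝ) ^ b := by
  filter_upwards [((tendsto_rpow_atTop (sub_pos.2 h)).comp tendsto_natCast_atTop_atTop).eventually_ge_atTop (1 / K),
    eventually_ge_atTop 1] with n h1 hn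
  have hn0 : (0 : ℝ) < n := by exact_mod_cast hn
  have h2 : (n : ℝ) ^ b = (n : ℝ) ^ b' * (n : ℝ) ^ (b - b') := by
    rw [← Real.rpow_add hn0]
    congr 1
    ring
  have h3 : 1 ≤ K * (n : ℝ) ^ (b - b') := by
    have h4 : 1 / K ≤ (n : ℝ) ^ (b - b') := h1
    rw [div_le_iff₀ hK] at h4
    linarith
  have h5 : 0 ≤ (n : ℝ) ^ b' := Real.rpow_nonneg hn0.le _
  calc (n : ℝ) ^ b' ≤ (n : ℝ) ^ b' * (K * (n : ℝ) ^ (b - b')) := le_mul_of_one_le_right h5 h3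
    _ = _ := by rw [h2]; ring

/-- The square of the second inequality, for the moments. -/
theorem sq_step96 {r q e x a : ℝ} (hr : 0 < r) (he : 0 ≤ e) (h : r ^ (q + a) * e ≤ x) :
    r ^ (2 * q + 2 * a) * e ^ 2 ≤ x ^ 2 := by
  have h1 : 0 ≤ r ^ (q + a) * e := mul_nonneg (Real.rpow_nonneg hr.le _) he
  have h2 := pow_le_pow_left₀ h1 h 2
  refine le_trans (le_of_eq ?_) h2
  rw [mul_pow, ← Real.rpow_natCast (r ^ (q + a)), ← Real.rpow_mul hr.le]
  congr 2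
  push_cast
  ring

/-- **From the width and the unit to the moments.** `M` = second moment (of the order `w ^ 2`), `S` = standard deviation (of the
order `E`), `W` = width of the problem (of the order `w`). -/
theorem rel96 {w E M S W : ℕ → ℝ} {a b B a₁ A₁ b₁ : ℝ} {n₁ : ℕ} (ha : 0 < a) (hb : 0 < b) (hB : 0 < B) (ha₁ : 0 < a₁)
    (hA₁ : 0 < A₁) (hb₁ : 0 < b₁) (hQ : QRel w E a)
    (hw : ∀ n, n₁ ≤ n → 1 ≤ w n) (hE : ∀ n, n₁ ≤ n → 0 < E n)
    (hM : ∀ n, n₁ ≤ n → b * w n ^ 2 ≤ M n ∧ M n ≤ B * w n ^ 2)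
    (hS : ∀ n, n₁ ≤ n → a₁ * E n ≤ S n ∧ S n ≤ A₁ * E n) (hW : ∀ n, n₁ ≤ n → b₁ * w n ≤ W n) :
    ∃ c : ℝ, 0 < c ∧ c ≤ a ∧
      (∀ η : ℝ, 0 < η → ∃ N : ℕ, ∀ m n : ℕ, N ≤ m → (m : ℝ) ^ (1 + η) ≤ n →
        ((n : ℝ) / m) ^ (1 + c) * M m ≤ M n ∧
        ((n : ℝ) / m) ^ (1 / 2 + c) * (S n ^ 2 * M m) ≤ M n * S m ^ 2 ∧
        ((n : ℝ) / m) ^ (2 + c) * (S n ^ 4 * M m ^ 3) ≤ M n ^ 3 * S m ^ 4) ∧
      (∀ᶠ n : ℕ in atTop, (n : ℝ) ^ (1 + c) ≤ M n ∧ (n : ℝ) ^ (1 / 2 + c) * S n ^ 2 ≤ M n ∧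
        (n : ℝ) ^ (2 + c) * S n ^ 4 ≤ M n ^ 3) ∧
      (∀ᶠ n : ℕ in atTop, (n : ℝ) ^ (1 / 2 + c) ≤ w n ∧ (n : ℝ) ^ (1 / 2 + c) ≤ W n ∧
        (n : ℝ) ^ (1 / 2 + c) * S n ≤ W n ^ (3 / 2 : ℝ) ∧ (n : ℝ) ^ (1 / 4 + c) * S n ≤ W n) := by
  -- the relative inequalities with the exponent `a`
  have key : ∀ η : ℝ, 0 < η → ∃ N : ℕ, 1 ≤ N ∧ n₁ ≤ N ∧ ∀ m n : ℕ, N ≤ m → (m : ℝ) ^ (1 + η) ≤ n →
      m ≤ n ∧
      ((n : ℝ) / m) ^ (1 + a) * M m ≤ M n ∧
      ((n : ℝ) / m) ^ (1 / 2 + a) * (S n ^ 2 * M m) ≤ M n * S m ^ 2 ∧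
      ((n : ℝ) / m) ^ (2 + a) * (S n ^ 4 * M m ^ 3) ≤ M n ^ 3 * S m ^ 4 ∧
      ((n : ℝ) / m) ^ (1 / 2 + a) ≤ w n / w m ∧
      ((n : ℝ) / m) ^ (1 / 2 + a) * (E n / E m) ≤ (w n / w m) ^ (3 / 2 : ℝ) ∧
      ((n : ℝ) / m) ^ (1 / 4 + a) * (E n / E m) ≤ w n / w m := by
    intro η hη
    obtain ⟨m₀, hm₀⟩ := hQ η hη
    obtain ⟨K, hK⟩ : ∃ K : ℝ, K = 1 + B / b + (A₁ / a₁) ^ 2 * (B / b) + (A₁ / a₁) ^ 4 * (B / b) ^ 3 := ⟨_, rfl⟩
    have k1 : 0 < B / b := by positivity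
    have k2 : 0 < (A₁ / a₁) ^ 2 * (B / b) := by positivity
    have k3 : 0 < (A₁ / a₁) ^ 4 * (B / b) ^ 3 := by positivity
    obtain ⟨N₂, hN₂⟩ := eventually_atTop.1
      (((tendsto_rpow_atTop (mul_pos hη ha)).comp tendsto_natCast_atTop_atTop).eventually_ge_atTop K)
    refine ⟨m₀ + N₂ + n₁ + 1, by omega, by omega, fun m n hm hmn => ?_⟩
    have hm1 : 1 ≤ m := by omega
    have hm1' : (1 : ℝ) ≤ m := by exact_mod_cast hm1
    have hm0 : (0 : ℝ) < m := by linarith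
    have hmn' : (m : ℝ) ≤ n := by
      refine le_trans ?_ hmn
      calc (m : ℝ) = (m : ℝ) ^ (1 : ℝ) := (Real.rpow_one _).symm
        _ ≤ (m : ℝ) ^ (1 + η) := Real.rpow_le_rpow_of_exponent_le hm1' (by linarith)
    have hmn1 : m ≤ n := by exact_mod_cast hmn'
    obtain ⟨q1, q2, q3⟩ := hm₀ m n (by omega) hmn
    obtain ⟨r, hr⟩ : ∃ r : ℝ, r = (n : ℝ) / m := ⟨_, rfl⟩
    rw [← hr] at q1 q2 q3 ⊢
    have hr1 : 1 ≤ r := by
      rw [hr, le_div_iff₀ hm0, one_mul]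
      exact hmn'
    have hr0 : 0 < r := by linarith
    have hrK : K ≤ r ^ a := by
      have h1 : (m : ℝ) ^ η ≤ r := by
        rw [hr, le_div_iff₀ hm0]
        refine le_trans (le_of_eq ?_) hmn
        rw [Real.rpow_add hm0, Real.rpow_one, mul_comm]
      have h2 : K ≤ (m : ℝ) ^ (η * a) := hN₂ m (by omega)
      rw [Real.rpow_mul hm0.le] at h2
      exact h2.trans (Real.rpow_le_rpow (Real.rpow_nonneg hm0.le _) h1 ha.le)
    have hwm := hw m (by omega)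
    have hwn := hw n (by omega)
    have hwm0 : 0 < w m := by linarith
    have hwn0 : 0 < w n := by linarith
    have hEm := hE m (by omega)
    have hEn := hE n (by omega)
    obtain ⟨M1, M2⟩ := hM m (by omega)
    obtain ⟨M3, M4⟩ := hM n (by omega)
    obtain ⟨S1, S2⟩ := hS m (by omega)
    obtain ⟨S3, S4⟩ := hS n (by omega)
    have hSm : 0 < S m := lt_of_lt_of_le (by positivity) S1
    have hSn : 0 < S n := lt_of_lt_of_le (by positivity) S3
    have hMm : 0 < M m := lt_of_lt_of_le (by positivity) M1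
    have hMn : 0 < M n := lt_of_lt_of_le (by positivity) M3
    obtain ⟨x, hx⟩ : ∃ x : ℝ, x = w n / w m := ⟨_, rfl⟩
    obtain ⟨e, he⟩ : ∃ e : ℝ, e = E n / E m := ⟨_, rfl⟩
    have o1 := q1
    have o2 := q2
    have o3 := q3
    rw [← hx] at q1 q2 q3
    rw [← he] at q2 q3
    have hx0 : 0 < x := by rw [hx]; positivity
    have he0 : 0 < e := by rw [he]; positivity
    have hwx : w n = x * w m := by rw [hx, div_mul_cancel₀ _ hwm0.ne']
    have hEe : E n = e * E m := by rw [he, div_mul_cancel₀ _ hEm.ne']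
    -- `M n ≥ (b / B) x ^ 2 M m`
    have hMr : b / B * (x ^ 2 * M m) ≤ M n := by
      refine le_trans ?_ M3
      rw [hwx, div_mul_eq_mul_div, div_le_iff₀ hB]
      calc b * (x ^ 2 * M m) ≤ b * (x ^ 2 * (B * w m ^ 2)) := by
            refine mul_le_mul_of_nonneg_left (mul_le_mul_of_nonneg_left M2 (by positivity)) hb.le
        _ = b * (x * w m) ^ 2 * B := by ring
    -- `S n ≤ (A₁ / a₁) e S m`
    have hSr : S n ≤ A₁ / a₁ * (e * S m) := by
      refine S4.trans ?_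
      rw [hEe, div_mul_eq_mul_div, le_div_iff₀ ha₁]
      calc A₁ * (e * E m) * a₁ = A₁ * e * (a₁ * E m) := by ring
        _ ≤ A₁ * e * S m := mul_le_mul_of_nonneg_left S1 (by positivity)
        _ = _ := by ring
    have hbB : b / B * (B / b) = 1 := by field_simp
    refine ⟨hmn1, ?_, ?_, ?_, o1, o2, o3⟩
    · have h1 : r ^ (1 + 2 * a) ≤ x ^ 2 := by
        have h2 := sq_step96 (q := 1 / 2) (e := 1) hr0 zero_le_one ((mul_one _).le.trans q1)
        refine le_trans (le_of_eq ?_) h2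
        rw [one_pow, mul_one]
        congr 1
        ring
      have h3 : B / b * r ^ (1 + a) ≤ r ^ (1 + 2 * a) := by
        have h4 : r ^ (1 + 2 * a) = r ^ a * r ^ (1 + a) := by
          rw [← Real.rpow_add hr0]
          congr 1
          ring
        rw [h4]
        exact mul_le_mul_of_nonneg_right (by linarith) (Real.rpow_nonneg hr0.le _)
      calc r ^ (1 + a) * M m = b / B * ((B / b * r ^ (1 + a)) * M m) := by field_simp
        _ ≤ b / B * (x ^ 2 * M m) :=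
          mul_le_mul_of_nonneg_left (mul_le_mul_of_nonneg_right (h3.trans h1) hMm.le) (by positivity)
        _ ≤ M n := hMr
    · have h1 : r ^ (1 / 2 + 2 * a) * e ^ 2 ≤ x ^ 2 := by
        have h2 := sq_step96 (q := 1 / 4) (e := e) hr0 he0.le q3
        refine le_trans (le_of_eq ?_) h2
        congr 2
        ring
      have h3 : (A₁ / a₁) ^ 2 * (B / b) * r ^ (1 / 2 + a) ≤ r ^ (1 / 2 + 2 * a) := by
        have h4 : r ^ (1 / 2 + 2 * a) = r ^ a * r ^ (1 / 2 + a) := by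
          rw [← Real.rpow_add hr0]
          congr 1
          ring
        rw [h4]
        exact mul_le_mul_of_nonneg_right (by linarith) (Real.rpow_nonneg hr0.le _)
      have h5 : S n ^ 2 ≤ (A₁ / a₁) ^ 2 * (e ^ 2 * S m ^ 2) := by
        calc S n ^ 2 ≤ (A₁ / a₁ * (e * S m)) ^ 2 := pow_le_pow_left₀ hSn.le hSr 2
          _ = _ := by ring
      have h6 : 0 ≤ r ^ (1 / 2 + a) := Real.rpow_nonneg hr0.le _
      calc r ^ (1 / 2 + a) * (S n ^ 2 * M m) ≤ r ^ (1 / 2 + a) * ((A₁ / a₁) ^ 2 * (e ^ 2 * S m ^ 2) * M m) :=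
            mul_le_mul_of_nonneg_left (mul_le_mul_of_nonneg_right h5 hMm.le) h6
        _ = b / B * (((A₁ / a₁) ^ 2 * (B / b) * r ^ (1 / 2 + a)) * e ^ 2 * M m) * S m ^ 2 := by field_simp
        _ ≤ b / B * (r ^ (1 / 2 + 2 * a) * e ^ 2 * M m) * S m ^ 2 := by
            refine mul_le_mul_of_nonneg_right (mul_le_mul_of_nonneg_left (mul_le_mul_of_nonneg_right
              (mul_le_mul_of_nonneg_right h3 (sq_nonneg _)) hMm.le) (by positivity)) (sq_nonneg _)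
        _ ≤ b / B * (x ^ 2 * M m) * S m ^ 2 := by
            refine mul_le_mul_of_nonneg_right (mul_le_mul_of_nonneg_left (mul_le_mul_of_nonneg_right h1 hMm.le)
              (by positivity)) (sq_nonneg _)
        _ ≤ M n * S m ^ 2 := mul_le_mul_of_nonneg_right hMr (sq_nonneg _)
    · have h1 : r ^ (2 + 4 * a) * e ^ 4 ≤ x ^ 6 := by
        have h2 := sq_step96 (q := 1 / 2) (e := e) hr0 he0.le q2
        have h3 := sq_step96 (q := 2 * (1 / 2)) (a := 2 * a) (e := e ^ 2) hr0 (sq_nonneg _) h2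
        have h4 : ((x ^ (3 / 2 : ℝ)) ^ 2) ^ 2 = x ^ 6 := by
          rw [← pow_mul, ← Real.rpow_natCast (x ^ (3 / 2 : ℝ)), ← Real.rpow_mul hx0.le, ← Real.rpow_natCast x 6]
          congr 1
          push_cast
          ring
        rw [h4] at h3
        refine le_trans (le_of_eq ?_) h3
        have e1 : (2 + 4 * a : ℝ) = 2 * (2 * (1 / 2)) + 2 * (2 * a) := by ring
        rw [e1]
        ring
      have h3 : (A₁ / a₁) ^ 4 * (B / b) ^ 3 * r ^ (2 + a) ≤ r ^ (2 + 4 * a) := by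
        have h4 : r ^ (2 + 4 * a) = r ^ (3 * a) * r ^ (2 + a) := by
          rw [← Real.rpow_add hr0]
          congr 1
          ring
        have h5 : r ^ a ≤ r ^ (3 * a) := Real.rpow_le_rpow_of_exponent_le hr1 (by linarith)
        rw [h4]
        exact mul_le_mul_of_nonneg_right (by linarith) (Real.rpow_nonneg hr0.le _)
      have h5 : S n ^ 4 ≤ (A₁ / a₁) ^ 4 * (e ^ 4 * S m ^ 4) := by
        calc S n ^ 4 ≤ (A₁ / a₁ * (e * S m)) ^ 4 := pow_le_pow_left₀ hSn.le hSr 4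
          _ = _ := by ring
      have h6 : 0 ≤ r ^ (2 + a) := Real.rpow_nonneg hr0.le _
      have h7 : (b / B) ^ 3 * (x ^ 6 * M m ^ 3) ≤ M n ^ 3 := by
        have h8 : 0 ≤ b / B * (x ^ 2 * M m) := by positivity
        refine le_trans (le_of_eq ?_) (pow_le_pow_left₀ h8 hMr 3)
        ring
      calc r ^ (2 + a) * (S n ^ 4 * M m ^ 3) ≤ r ^ (2 + a) * ((A₁ / a₁) ^ 4 * (e ^ 4 * S m ^ 4) * M m ^ 3) :=
            mul_le_mul_of_nonneg_left (mul_le_mul_of_nonneg_right h5 (by positivity)) h6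
        _ = (b / B) ^ 3 * (((A₁ / a₁) ^ 4 * (B / b) ^ 3 * r ^ (2 + a)) * e ^ 4 * M m ^ 3) * S m ^ 4 := by field_simp
        _ ≤ (b / B) ^ 3 * (r ^ (2 + 4 * a) * e ^ 4 * M m ^ 3) * S m ^ 4 := by
            refine mul_le_mul_of_nonneg_right (mul_le_mul_of_nonneg_left (mul_le_mul_of_nonneg_right
              (mul_le_mul_of_nonneg_right h3 (by positivity)) (by positivity)) (by positivity)) (by positivity)
        _ ≤ (b / B) ^ 3 * (x ^ 6 * M m ^ 3) * S m ^ 4 := by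
            refine mul_le_mul_of_nonneg_right (mul_le_mul_of_nonneg_left (mul_le_mul_of_nonneg_right h1 (by positivity))
              (by positivity)) (by positivity)
        _ ≤ M n ^ 3 * S m ^ 4 := mul_le_mul_of_nonneg_right h7 (by positivity)
  -- a fixed start
  obtain ⟨N, hN1, hNn, hN⟩ := key 1 one_pos
  have hNR : (1 : ℝ) ≤ N := by exact_mod_cast hN1
  have hN0 : (0 : ℝ) < N := by linarith
  have hwN := hw N hNn
  have hwN0 : 0 < w N := by linarith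
  have hEN := hE N hNn
  obtain ⟨MN1, -⟩ := hM N hNn
  obtain ⟨SN1, -⟩ := hS N hNn
  have hMN : 0 < M N := lt_of_lt_of_le (by positivity) MN1
  have hSN : 0 < S N := lt_of_lt_of_le (by positivity) SN1
  have hdiv : ∀ (n : ℕ) (p : ℝ), ((n : ℝ) / N) ^ p = 1 / (N : ℝ) ^ p * (n : ℝ) ^ p := fun n p => by
    rw [Real.div_rpow (Nat.cast_nonneg n) hN0.le]
    ring
  have hNp : ∀ p : ℝ, 0 < (N : ℝ) ^ p := fun p => Real.rpow_pos_of_pos hN0 _
  have hbig : ∀ᶠ n : ℕ in atTop, (N : ℝ) ^ (1 + 1 : ℝ) ≤ n := tendsto_natCast_atTop_atTop.eventually_ge_atTop _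
  refine ⟨a / 2, by positivity, by linarith, ?_, ?_, ?_⟩
  · intro η hη
    obtain ⟨N', hN'1, hN'n, h⟩ := key η hη
    refine ⟨N', fun m n hm hmn => ?_⟩
    obtain ⟨g0, g1, g2, g3, -, -, -⟩ := h m n hm hmn
    have hm0 : (0 : ℝ) < m := by
      have : 0 < m := by omega
      exact_mod_cast this
    have hr1 : (1 : ℝ) ≤ (n : ℝ) / m := by
      rw [le_div_iff₀ hm0, one_mul]
      exact_mod_cast g0
    have hr : ∀ p : ℝ, ((n : ℝ) / m) ^ (p + a / 2) ≤ ((n : ℝ) / m) ^ (p + a) := fun p =>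
      Real.rpow_le_rpow_of_exponent_le hr1 (by linarith)
    -- nonnegativity
    have hpos : ∀ k : ℕ, n₁ ≤ k → 0 ≤ M k := fun k hk => le_trans (by have := hw k hk; positivity) (hM k hk).1
    have p1 := hpos m (hN'n.trans hm)
    exact ⟨(mul_le_mul_of_nonneg_right (hr 1) p1).trans g1,
      (mul_le_mul_of_nonneg_right (hr (1 / 2)) (by positivity)).trans g2,
      (mul_le_mul_of_nonneg_right (hr 2) (by positivity)).trans g3⟩
  · filter_upwards [hbig, absorb96 (b := 1 + a) (b' := 1 + a / 2) (K := 1 / (N : ℝ) ^ (1 + a) * M N)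
        (mul_pos (one_div_pos.2 (hNp _)) hMN) (by linarith),
      absorb96 (b := 1 / 2 + a) (b' := 1 / 2 + a / 2) (K := 1 / (N : ℝ) ^ (1 / 2 + a) * (M N / S N ^ 2))
        (mul_pos (one_div_pos.2 (hNp _)) (by positivity)) (by linarith),
      absorb96 (b := 2 + a) (b' := 2 + a / 2) (K := 1 / (N : ℝ) ^ (2 + a) * (M N ^ 3 / S N ^ 4))
        (mul_pos (one_div_pos.2 (hNp _)) (by positivity)) (by linarith)] with n h0 h1 h2 h3
    obtain ⟨-, g1, g2, g3, -, -, -⟩ := hN N n le_rfl h0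
    rw [hdiv] at g1 g2 g3
    refine ⟨?_, ?_, ?_⟩
    · refine h1.trans (le_trans (le_of_eq ?_) g1)
      ring
    · have h4 := mul_le_mul_of_nonneg_right h2 (sq_nonneg (S n))
      refine h4.trans ?_
      have h5 : 1 / (N : ℝ) ^ (1 / 2 + a) * (M N / S N ^ 2) * (n : ℝ) ^ (1 / 2 + a) * S n ^ 2 =
          (1 / (N : ℝ) ^ (1 / 2 + a) * (n : ℝ) ^ (1 / 2 + a) * (S n ^ 2 * M N)) / S N ^ 2 := by
        field_simp
      rw [h5, div_le_iff₀ (by positivity)]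
      exact g2
    · have h4 := mul_le_mul_of_nonneg_right h3 (show 0 ≤ S n ^ 4 by positivity)
      refine h4.trans ?_
      have h5 : 1 / (N : ℝ) ^ (2 + a) * (M N ^ 3 / S N ^ 4) * (n : ℝ) ^ (2 + a) * S n ^ 4 =
          (1 / (N : ℝ) ^ (2 + a) * (n : ℝ) ^ (2 + a) * (S n ^ 4 * M N ^ 3)) / S N ^ 4 := by
        field_simp
      rw [h5, div_le_iff₀ (by positivity)]
      exact g3
  · filter_upwards [hbig, eventually_ge_atTop n₁,
      absorb96 (b := 1 / 2 + a) (b' := 1 / 2 + a / 2) (K := 1 / (N : ℝ) ^ (1 / 2 + a) * w N)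
        (mul_pos (one_div_pos.2 (hNp _)) hwN0) (by linarith),
      absorb96 (b := 1 / 2 + a) (b' := 1 / 2 + a / 2) (K := 1 / (N : ℝ) ^ (1 / 2 + a) * w N * b₁)
        (mul_pos (mul_pos (one_div_pos.2 (hNp _)) hwN0) hb₁) (by linarith),
      absorb96 (b := 1 / 2 + a) (b' := 1 / 2 + a / 2) (K := 1 / (N : ℝ) ^ (1 / 2 + a) / (A₁ * E N) * b₁ ^ (3 / 2 : ℝ))
        (mul_pos (div_pos (one_div_pos.2 (hNp _)) (by positivity)) (by positivity)) (by linarith),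
      absorb96 (b := 1 / 4 + a) (b' := 1 / 4 + a / 2) (K := 1 / (N : ℝ) ^ (1 / 4 + a) / (A₁ * E N) * b₁)
        (mul_pos (div_pos (one_div_pos.2 (hNp _)) (by positivity)) (by positivity)) (by linarith)]
      with n h0 hn h1 h2 h3 h4
    obtain ⟨-, -, -, -, g1, g2, g3⟩ := hN N n le_rfl h0
    rw [hdiv] at g1 g2 g3
    have hwn := hw n hn
    have hwn0 : 0 < w n := by linarith
    have hEn := hE n hn
    obtain ⟨-, Sn⟩ := hS n hn
    have hWn := hW n hn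
    have hn0 : (0 : ℝ) ≤ n := Nat.cast_nonneg n
    have hg1 : 1 / (N : ℝ) ^ (1 / 2 + a) * w N * (n : ℝ) ^ (1 / 2 + a) ≤ w n := by
      rw [le_div_iff₀ hwN0] at g1
      refine le_trans (le_of_eq ?_) g1
      ring
    have hwd : w n / w N ≤ w n := div_le_self hwn0.le hwN
    refine ⟨h1.trans hg1, ?_, ?_, ?_⟩
    · refine h2.trans (le_trans ?_ hWn)
      have h5 := mul_le_mul_of_nonneg_left hg1 hb₁.le
      refine le_trans (le_of_eq ?_) h5
      ring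
    · have h5 : (w n / w N) ^ (3 / 2 : ℝ) ≤ w n ^ (3 / 2 : ℝ) := Real.rpow_le_rpow (by positivity) hwd (by norm_num)
      have h6 : 1 / (N : ℝ) ^ (1 / 2 + a) / (E N) * (n : ℝ) ^ (1 / 2 + a) * E n ≤ w n ^ (3 / 2 : ℝ) := by
        refine le_trans (le_of_eq ?_) (g2.trans h5)
        ring
      have hSE : S n / A₁ ≤ E n := by
        rw [div_le_iff₀ hA₁]
        linarith
      have h7 : b₁ ^ (3 / 2 : ℝ) * w n ^ (3 / 2 : ℝ) ≤ W n ^ (3 / 2 : ℝ) := by
        rw [← Real.mul_rpow hb₁.le hwn0.le]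
        exact Real.rpow_le_rpow (by positivity) hWn (by norm_num)
      have hS0 : 0 ≤ S n := le_trans (by positivity) (hS n hn).1
      have hX : 0 ≤ 1 / (N : ℝ) ^ (1 / 2 + a) / (E N) * (n : ℝ) ^ (1 / 2 + a) := by
        have := hNp (1 / 2 + a)
        positivity
      calc (n : ℝ) ^ (1 / 2 + a / 2) * S n
          ≤ 1 / (N : ℝ) ^ (1 / 2 + a) / (A₁ * E N) * b₁ ^ (3 / 2 : ℝ) * (n : ℝ) ^ (1 / 2 + a) * S n :=
            mul_le_mul_of_nonneg_right h3 hS0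
        _ = b₁ ^ (3 / 2 : ℝ) * (1 / (N : ℝ) ^ (1 / 2 + a) / (E N) * (n : ℝ) ^ (1 / 2 + a) * (S n / A₁)) := by field_simp
        _ ≤ b₁ ^ (3 / 2 : ℝ) * (1 / (N : ℝ) ^ (1 / 2 + a) / (E N) * (n : ℝ) ^ (1 / 2 + a) * E n) :=
            mul_le_mul_of_nonneg_left (mul_le_mul_of_nonneg_left hSE hX) (by positivity)
        _ ≤ b₁ ^ (3 / 2 : ℝ) * w n ^ (3 / 2 : ℝ) := mul_le_mul_of_nonneg_left h6 (by positivity)
        _ ≤ _ := h7
    · have h6 : 1 / (N : ℝ) ^ (1 / 4 + a) / (E N) * (n : ℝ) ^ (1 / 4 + a) * E n ≤ w n := by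
        refine le_trans (le_of_eq ?_) (g3.trans hwd)
        ring
      have hSE : S n / A₁ ≤ E n := by
        rw [div_le_iff₀ hA₁]
        linarith
      have hS0 : 0 ≤ S n := le_trans (by positivity) (hS n hn).1
      have hX : 0 ≤ 1 / (N : ℝ) ^ (1 / 4 + a) / (E N) * (n : ℝ) ^ (1 / 4 + a) := by
        have := hNp (1 / 4 + a)
        positivity
      calc (n : ℝ) ^ (1 / 4 + a / 2) * S n
          ≤ 1 / (N : ℝ) ^ (1 / 4 + a) / (A₁ * E N) * b₁ * (n : ℝ) ^ (1 / 4 + a) * S n :=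
            mul_le_mul_of_nonneg_right h4 hS0
        _ = b₁ * (1 / (N : ℝ) ^ (1 / 4 + a) / (E N) * (n : ℝ) ^ (1 / 4 + a) * (S n / A₁)) := by field_simp
        _ ≤ b₁ * (1 / (N : ℝ) ^ (1 / 4 + a) / (E N) * (n : ℝ) ^ (1 / 4 + a) * E n) :=
            mul_le_mul_of_nonneg_left (mul_le_mul_of_nonneg_left hSE hX) hb₁.le
        _ ≤ b₁ * w n := mul_le_mul_of_nonneg_left h6 hb₁.le
        _ ≤ _ := hWn

end Pool.Agent.W_7d29a1_HM
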