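import Pool.Agent.W_7d29a1_HM.FinalZS
import Pool.Agent.W_7d29a1_HM.QAlg
import Pool.Agent.W_7d29a1_HM.QRel
import Pool.Agent.W_7d29a1_HS.Main3

/-!
MP_7d29a1_pr, N1 WITH THE SECOND STOREY: superdiffusivity at every force, the inequality between the fluctuations of the path and
of the free energy, the rate function and the free energy near every velocity and force, for the objects of `W_7d29a1_HM.ModelH`,
from the growth of the width and the unit at every tilt (input: the second storey of STORM Z, `QRel`). (helper96)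
-/

set_option autoImplicit false

namespace Pool.Agent.W_7d29a1_HM

open MeasureTheory ProbabilityTheory Filter Topology
open Pool.Agent.W_7d29a1_F Pool.Agent.W_7d29a1_h4g Pool.Agent.W_7d29a1_H Pool.Agent.W_7d29a1_HS
open Pool.Agent.W_7d29a1_h47 (Lam LamN walk energy endMGF endP forceP forceE tendsto_logZ EM_of Nondeg_of map_toEnv log_endMGF)
open Pool.Agent.W_7d29a1_SR (toF mp_toF)

section

variable {μ : Measure ℝ} [IsProbabilityMeasure μ] {h c C : ℝ} {n₀ : ℕ}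
variable {Ω : Type*} [MeasurableSpace Ω] {P : Measure Ω} [IsProbabilityMeasure P] {ω : ℕ × ℤ → Ω → ℝ} {β : ℝ}

/-- The displacement of the end point is spread at the scale `n ^ (1 / 2 + a)`, and `ν_h ≥ 1 / 2 + a`. -/
theorem spreadQ96 (hI : In μ (2 * h) c C n₀) (hmeas : ∀ p, Measurable (ω p))
    (hmp : MeasurePreserving (fun x => toF β fun p => ω p x) P (law μ)) {a : ℝ} (ha : 0 < a)
    (hev : ∀ᶠ n : ℕ in atTop, (n : ℝ) ^ (1 / 2 + a) ≤ wd μ (2 * h) n) :
    Tendsto (fun n : ℕ => ∫ x, forceP β h (fun p => ω p x) n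
      {s | |(walk s n : ℝ) - vel μ h * n| ≤ (n : ℝ) ^ (1 / 2 + a / 2)} ∂P) atTop (𝓝 0) ∧
    1 / 2 + a / 2 ≤ nuH P β h (vel μ h) ω := by
  obtain ⟨-, h2⟩ := ev_Z96 (P := P) (ω := ω) (β := β) hI hmeas hmp (a := a) ha
  refine ⟨?_, nuH_ge96 hmeas fun ε hε => ?_⟩
  · rw [Metric.tendsto_atTop']
    intro ε hε
    obtain ⟨N', hN'⟩ := eventually_atTop.1 (hev.and (h2 (ε / 2) (by positivity)))
    refine ⟨N', fun n hn => ?_⟩
    obtain ⟨g1, g2⟩ := hN' n hn.le
    have h3 := g2 g1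
    rw [Real.dist_eq, sub_zero, abs_of_nonneg (integral_nonneg fun x => forceP_nonneg _ _ _ _ _)]
    linarith
  · refine (hev.and (h2 ε hε)).frequently.mono fun n hn => ?_
    exact le_trans (integral_mono (forceP_integrable hmeas β h n _) (forceP_integrable hmeas β h n _) fun x =>
      forceP_mono _ _ _ _ fun s hs => hs n le_rfl) (hn.2 hn.1)

/-- The exponents and the rate function, from the growth of the width and the standard deviation. -/
theorem expQ96 (hI : In μ (2 * h) c C n₀) (hmeas : ∀ p, Measurable (ω p))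
    (hmp : MeasurePreserving (fun x => toF β fun p => ω p x) P (law μ)) {a : ℝ} (ha : 0 < a)
    (hev : ∀ᶠ n : ℕ in atTop, (n : ℝ) ^ (1 / 2 + a) ≤ wth P β h ω (fun v => J μ (2 * h) (v / 2)) n ∧
      (n : ℝ) ^ (1 / 2 + a) * sgm P β h ω n ≤ wth P β h ω (fun v => J μ (2 * h) (v / 2)) n ^ (3 / 2 : ℝ) ∧
      (n : ℝ) ^ (1 / 4 + a) * sgm P β h ω n ≤ wth P β h ω (fun v => J μ (2 * h) (v / 2)) n) :
    chiH P β h ω + 1 / 4 + a ≤ nuH P β h (vel μ h) ω ∧ 2 * chiH P β h ω + 1 + a ≤ 3 * nuH P β h (vel μ h) ω ∧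
    ∃ K v₀ : ℝ, 0 < K ∧ 0 < v₀ ∧ ∀ u : ℝ, |u| ≤ v₀ → J μ (2 * h) (u / 2) ≤ K * |u| ^ (3 / 2 + 2 * a) := by
  have hμ := hI.em
  have hnd := hI.nd
  have hrf := hI.rf
  obtain ⟨cp, Kp, hcp, hKp, hJlow⟩ := J_ge_pow hI
  obtain ⟨Cu, hCu, hJup⟩ := J_le_pow hμ hnd |2 * h|
  obtain ⟨aj, Kj, haj, hKj, hjreg⟩ := J_reg hI
  obtain ⟨D, δs, hD, hδs, hsym⟩ := hI.sym
  obtain ⟨cr, Cr, hcr, hCr, n₁, hn₁, hreg⟩ := regP (P := P) (β := β) (ω := ω) hI hmp
  have hlow : ∀ v, |v| < 1 → cp * (1 / 2) ^ Kp * |v| ^ Kp ≤ J μ (2 * h) (v / 2) := by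
    intro v hv
    have h1 := hJlow (v / 2) (by rw [abs_div, abs_of_pos (two_pos : (0 : ℝ) < 2)]; linarith)
    rw [abs_div, abs_of_pos (two_pos : (0 : ℝ) < 2)] at h1
    refine le_trans (le_of_eq ?_) h1
    rw [show |v| / 2 = 1 / 2 * |v| by ring, Real.mul_rpow (by norm_num) (abs_nonneg v)]
    ring
  have hup : ∀ v : ℝ, J μ (2 * h) (v / 2) ≤ Cu * |v| ^ (1 + 1 / 99 : ℝ) := by
    intro v
    refine (hJup (2 * h) le_rfl (v / 2)).trans (mul_le_mul_of_nonneg_left ?_ hCu.le)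
    refine Real.rpow_le_rpow (abs_nonneg _) ?_ (by norm_num)
    rw [abs_div, abs_of_pos (two_pos : (0 : ℝ) < 2)]
    linarith [abs_nonneg v]
  have hcp' : 0 < cp * (1 / 2) ^ Kp := by positivity
  obtain ⟨σ, w', c', C', M, hσ, hw', hc, hc1, hC, -, -, hS, -, -, -, -, -, hnu, hchi, -, e2, -, -, -, -, -⟩ :=
    core_P hI hmeas hmp (c₂ := cp * (1 / 2) ^ Kp) (K₂ := Kp) (C₃ := Cu) (a₃ := 1 / 99) hcp' hKp hlow hCu (by norm_num)
      (fun v _ => hup v) (c₉ := 1) one_pos 1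
  have hwe : ∀ n, w' n = wth P β h ω (fun v => J μ (2 * h) (v / 2)) n := by
    intro n
    rw [hw', hσ n]
    rfl
  simp only [← hwe, ← hσ] at hev
  have hbw : IsBoundedUnder (· ≤ ·) atTop (fun n : ℕ => Real.log (w' n) / Real.log n) ∧
      IsBoundedUnder (· ≥ ·) atTop (fun n : ℕ => Real.log (w' n) / Real.log n) := by
    obtain ⟨n₅, h5⟩ := eventually_atTop.1 hS
    exact Pool.Agent.W_7d29a1_SR.logr_bdd (w := w') (n₁ := n₅) (b := 1 / 3 + c') (B := 1 - c') (fun n hn => (h5 n hn).2.2.1)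
      fun n hn => (h5 n hn).2.2.2.1
  have hbs : IsBoundedUnder (· ≤ ·) atTop (fun n : ℕ => Real.log (σ n) / Real.log n) ∧
      IsBoundedUnder (· ≥ ·) atTop (fun n : ℕ => Real.log (σ n) / Real.log n) := by
    obtain ⟨n₅, h5⟩ := eventually_atTop.1 (hS.and (ev_absorb (b := 1) (b' := 1 / 2) (K := 1 / C') (by positivity) (by norm_num)))
    refine Pool.Agent.W_7d29a1_SR.logr_bdd (w := σ) (n₁ := n₅) (b := c') (B := 1) (fun n hn => (h5 n hn).1.1) fun n hn => ?_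
    obtain ⟨h6, h7⟩ := h5 n hn
    calc σ n ≤ C' * (n : ℝ) ^ (1 / 2 : ℝ) := h6.2.1
      _ ≤ C' * (1 / C' * (n : ℝ) ^ (1 : ℝ)) := mul_le_mul_of_nonneg_left h7 hC.le
      _ = (n : ℝ) ^ (1 : ℝ) := by field_simp
  -- the logarithms
  have hlog : ∀ᶠ n : ℕ in atTop, 1 * (Real.log (σ n) / Real.log n) + (1 / 4 + a) ≤ Real.log (w' n) / Real.log n ∧
      2 / 3 * (Real.log (σ n) / Real.log n) + (1 / 3 + 2 / 3 * a) ≤ Real.log (w' n) / Real.log n := by
    filter_upwards [hev, hS, eventually_ge_atTop 2] with n h1 h2 h3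
    have hn2 : (2 : ℝ) ≤ n := by exact_mod_cast h3
    have hn0 : (0 : ℝ) < n := by linarith
    have hl : 0 < Real.log n := Real.log_pos (by linarith)
    have hσ0 : 0 < σ n := (Real.rpow_pos_of_pos hn0 _).trans_le h2.1
    have hw0 : 0 < w' n := (Real.rpow_pos_of_pos hn0 _).trans_le h2.2.2.1
    obtain ⟨-, g2, g3⟩ := h1
    have l2 := Real.log_le_log (by positivity) g2
    have l3 := Real.log_le_log (by positivity) g3
    rw [Real.log_mul (by positivity) hσ0.ne', Real.log_rpow hn0, Real.log_rpow hw0] at l2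
    rw [Real.log_mul (by positivity) hσ0.ne', Real.log_rpow hn0] at l3
    constructor
    · rw [le_div_iff₀ hl]
      have e : (1 * (Real.log (σ n) / Real.log n) + (1 / 4 + a)) * Real.log n =
          (1 / 4 + a) * Real.log n + Real.log (σ n) := by
        field_simp
        ring
      rw [e]
      exact l3
    · rw [le_div_iff₀ hl]
      have e : (2 / 3 * (Real.log (σ n) / Real.log n) + (1 / 3 + 2 / 3 * a)) * Real.log n =
          2 / 3 * ((1 / 2 + a) * Real.log n + Real.log (σ n)) := by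
        field_simp
        ring
      rw [e]
      linarith
  have L1 := liminf_lin96 (p := 1) (q := 1 / 4 + a) one_pos hbs.2 hbw.1.isCoboundedUnder_ge (hlog.mono fun n hn => hn.1)
  have L2 := liminf_lin96 (p := 2 / 3) (q := 1 / 3 + 2 / 3 * a) (by norm_num) hbs.2 hbw.1.isCoboundedUnder_ge
    (hlog.mono fun n hn => hn.2)
  rw [← hchi] at L1 L2
  refine ⟨by linarith, by linarith, ?_⟩
  -- the rate function
  obtain ⟨c₉, hc₉⟩ : ∃ c₉ : ℝ, c₉ = min (min aj δs) (1 / D) := ⟨_, rfl⟩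
  have hc₉0 : 0 < c₉ := by rw [hc₉]; exact lt_min (lt_min haj hδs) (by positivity)
  have k1 : c₉ ≤ aj := by rw [hc₉]; exact (min_le_left _ _).trans (min_le_left _ _)
  have k2 : c₉ ≤ δs := by rw [hc₉]; exact (min_le_left _ _).trans (min_le_right _ _)
  have k3 : c₉ ≤ 1 / D := by rw [hc₉]; exact min_le_right _ _
  have hlim : Tendsto (fun n : ℕ => w' n / n) atTop (𝓝 0) := by
    have t1 : Tendsto (fun n : ℕ => (n : ℝ) ^ (-c')) atTop (𝓝 0) :=
      (tendsto_rpow_neg_atTop hc).comp tendsto_natCast_atTop_atTop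
    refine squeeze_zero' (hS.mono fun n hn => ?_) ?_ t1
    · exact div_nonneg ((Real.rpow_nonneg (Nat.cast_nonneg n) _).trans hn.2.2.1) (Nat.cast_nonneg n)
    · filter_upwards [hS, eventually_ge_atTop 1] with n hn h1
      have hn0 : (0 : ℝ) < n := by exact_mod_cast h1
      rw [div_le_iff₀ hn0]
      refine hn.2.2.2.1.trans (le_of_eq ?_)
      nth_rewrite 3 [← Real.rpow_one (n : ℝ)]
      rw [← Real.rpow_add hn0]
      congr 1
      ring
  refine I_upper96 (w := w') (σ := σ) (I := fun u => J μ (2 * h) (u / 2)) (a := a) (b := cr) (k := cr) (c := c₉) (n₁ := n₁) ha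
    hcr hcr.le hc₉0 ?_ (fun m n hm hmn => ?_) hlim ?_ (fun u R hR hRu => ?_) fun u hu hu1 => ?_
  · show J μ (2 * h) (0 / 2) = 0
    rw [zero_div]
    exact hrf.zero
  · rw [hwe m, hwe n]
    exact (hreg m n hm hmn).2.2.1
  · filter_upwards [hS, hev] with n h1 h2
    exact ⟨h1.2.2.2.2.1, h2.1, h2.2.1⟩
  · have h1 := (hjreg (u / 2) R hR (by
      rw [show R * (u / 2) = R * u / 2 by ring, abs_div, abs_of_pos (two_pos : (0 : ℝ) < 2)]
      linarith [abs_nonneg (R * u)])).1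
    rw [show R * (u / 2) = R * u / 2 by ring] at h1
    refine le_trans ?_ h1
    refine mul_le_mul_of_nonneg_right ?_ (hrf.nn _)
    calc c₉ ≤ aj * 1 := by linarith
      _ ≤ aj * R ^ (1 + aj) := mul_le_mul_of_nonneg_left (Real.one_le_rpow hR (by positivity)) haj.le
  · have h1 := (hsym (u / 2) (by rw [abs_div, abs_of_pos (two_pos : (0 : ℝ) < 2), abs_of_pos hu]; linarith)).2
    show c₉ * J μ (2 * h) (-u / 2) ≤ J μ (2 * h) (u / 2)
    rw [show -u / 2 = -(u / 2) by ring]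
    have h2 : 0 ≤ J μ (2 * h) (-(u / 2)) := hrf.nn _
    have h3 : c₉ * D ≤ 1 := by
      rw [le_div_iff₀ (by positivity)] at k3
      exact k3
    calc c₉ * J μ (2 * h) (-(u / 2)) ≤ c₉ * (D * J μ (2 * h) (u / 2)) := mul_le_mul_of_nonneg_left h1 hc₉0.le
      _ = c₉ * D * J μ (2 * h) (u / 2) := by ring
      _ ≤ 1 * J μ (2 * h) (u / 2) := mul_le_mul_of_nonneg_right h3 (hrf.nn _)
      _ = _ := one_mul _

end

/-- **SUPERDIFFUSIVITY AT EVERY FORCE, WITH THE SECOND STOREY.** -/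
theorem main_ZQ
    (hQ : ∀ (μ : Measure ℝ) [IsProbabilityMeasure μ], Pool.Agent.W_7d29a1_h47.EM μ → Pool.Agent.W_7d29a1_h47.Nondeg μ →
      ∀ s : ℝ, ∃ a : ℝ, 0 < a ∧ QRel (wd μ s) (EE μ s) a)
    {Ω : Type*} [MeasurableSpace Ω] (P : Measure Ω) [IsProbabilityMeasure P]
    (ω : ℕ × ℤ → Ω → ℝ) (hmeas : ∀ p, Measurable (ω p)) (hindep : iIndepFun ω P)
    (hident : ∀ p q, IdentDistrib (ω p) (ω q) P P) (hnc : ¬ ∃ c : ℝ, ∀ᵐ x ∂P, ω (0, 0) x = c)
    (hexp : ∀ b : ℝ, Integrable (fun x => Real.exp (b * ω (0, 0) x)) P) {β : ℝ} (hβ : 0 < β) :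
    ∃ lam J : ℝ → ℝ, Differentiable ℝ lam ∧ deriv lam 0 = 0 ∧
      -- the free energy and the rate function of the end point
      (∀ h, ∀ᵐ x ∂P, Tendsto (fun n : ℕ => Real.log (endMGF β h (fun p => ω p x) n) / n) atTop (𝓝 (lam h))) ∧
      (∀ v, |v| < 1 → ∀ y : ℕ → ℤ, (∀ n, (y n - n) % 2 = 0) → Tendsto (fun n : ℕ => (y n : ℝ) / n) atTop (𝓝 v) →
        ∀ᵐ x ∂P, Tendsto (fun n : ℕ => -Real.log (endP β (fun p => ω p x) n (y n)) / n) atTop (𝓝 (J v))) ∧
      (∀ v, |v| < 1 → IsLUB (Set.range fun h => h * v - lam h) (J v)) ∧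
      ∀ h : ℝ, ∃ (v c : ℝ) (M V : ℕ → ℝ), 0 < c ∧ v = deriv lam h ∧ |v| < 1 ∧
        (∀ n, M n = ∫ x, fE β h (fun p => ω p x) n (fun s => |(walk s n : ℝ) - v * n| ^ 2) ∂P) ∧
        (∀ n, V n = Var[fun x => Real.log (fZ β h (fun p => ω p x) n); P]) ∧
        -- the fluctuations of the path and of the free energy, between two lengths
        (∀ η : ℝ, 0 < η → ∃ N : ℕ, ∀ m n : ℕ, N ≤ m → (m : ℝ) ^ (1 + η) ≤ n →
          ((n : ℝ) / m) ^ (1 + c) * M m ≤ M n ∧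
          ((n : ℝ) / m) ^ (1 / 2 + c) * (V n * M m) ≤ M n * V m ∧
          ((n : ℝ) / m) ^ (2 + c) * (V n ^ 2 * M m ^ 3) ≤ M n ^ 3 * V m ^ 2) ∧
        -- at every large length
        (∀ᶠ n : ℕ in atTop, (n : ℝ) ^ (1 + c) ≤ M n ∧ (n : ℝ) ^ (1 / 2 + c) * V n ≤ M n ∧
          (n : ℝ) ^ (2 + c) * V n ^ 2 ≤ M n ^ 3) ∧
        Tendsto (fun n : ℕ => ∫ x, fP β h (fun p => ω p x) n
          {s | |(walk s n : ℝ) - v * n| ≤ (n : ℝ) ^ (1 / 2 + c)} ∂P) atTop (𝓝 0) ∧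
        -- the exponents
        1 / 2 + c ≤ nuF P β h v ω ∧ chiF P β h ω + 1 / 4 + c ≤ nuF P β h v ω ∧
        2 * chiF P β h ω + 1 + c ≤ 3 * nuF P β h v ω ∧
        -- the rate function and the free energy
        (∀ u, |u| ≤ c → J (v + u) - J v - h * u ≤ |u| ^ (3 / 2 + c)) ∧
        (∀ k, |k| ≤ c → |k| ^ (3 - c) ≤ lam (h + k) - lam h - k * v) := by
  simp only [fE_eq, fP_eq, nuF_eq, chiF_eq, fZ_eq]
  obtain ⟨⟨lam, J', -, hdiff, -, -, -, h4, -, h6, h7, -, -, -⟩, -⟩ :=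
    Pool.Agent.W_7d29a1_F.main_FV P ω hmeas hindep hident hnc hexp hβ
  obtain ⟨μ, hμdef⟩ : ∃ μ : Measure ℝ, μ = P.map fun x => β * ω (0, 0) x := ⟨_, rfl⟩
  have hm0 : Measurable fun x => β * ω (0, 0) x := (hmeas _).const_mul β
  have hprob : IsProbabilityMeasure μ := by
    rw [hμdef]
    exact Measure.isProbabilityMeasure_map hm0.aemeasurable
  have hμ : Pool.Agent.W_7d29a1_h47.EM μ := by
    rw [hμdef]
    exact EM_of (hmeas _) hexp β
  have hnd : Pool.Agent.W_7d29a1_h47.Nondeg μ := by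
    rw [hμdef]
    exact Nondeg_of (hmeas _) hnc hβ
  have hmpE := map_toEnv hmeas hindep hident β
  rw [← hμdef] at hmpE
  have hmp := mp_toF hmeas hindep hident β
  rw [← hμdef] at hmp
  have hid : lam = LamN μ := by
    funext h
    have g1 := hmpE.quasiMeasurePreserving.ae (tendsto_logZ hμ h)
    have g2 := hmpE.quasiMeasurePreserving.ae (tendsto_logZ hμ 0)
    obtain ⟨x, hx1, hx2, hx3⟩ := (g1.and (g2.and (h4 h))).exists
    refine tendsto_nhds_unique hx3 ((hx1.sub hx2).congr fun n => ?_)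
    rw [log_endMGF, sub_div]
  have hidL : ∀ h, lam h = Lam μ h - Lam μ 0 := by
    intro h
    rw [hid]
    rfl
  have hvelA : ∀ h, vel μ h = deriv lam h := by
    intro h
    rw [vel_eq hμ hnd, hid]
    have : LamN μ = fun x => Lam μ x - Lam μ 0 := rfl
    rw [this, deriv_sub_const]
  have hvel0 : deriv lam 0 = 0 := by
    have h1 := sl_mir hμ 0 hnd
    rw [neg_zero] at h1
    rw [← hvelA 0]
    unfold vel
    rw [mul_zero]
    linarith
  refine ⟨lam, J', hdiff, hvel0, h4, h7, h6, fun h => ?_⟩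
  -- the velocity and the rate function
  have hv1 := abs_vel hμ hnd h
  obtain ⟨ρ, hρ, hρ1, hJe, -⟩ := rate_near hμ hnd hidL h6 h
  have hJv : J' (vel μ h) = h * vel μ h - lam h := (h6 _ hv1).unique (lub_vel hμ hnd hidL h)
  obtain ⟨c₀, C₀, n₀, hI⟩ := in_tilt hμ hnd (2 * h)
  obtain ⟨a, ha, hrel⟩ := hQ μ hμ hnd (2 * h)
  obtain ⟨a₁, A₁, b, B, ha₁, hA₁, hb, hB, n₁, hn₁, hsc⟩ := scales (P := P) (β := β) (ω := ω) hI hmp
  obtain ⟨b₂, B₂, hb₂, hB₂, n₂, hn₂, hmo⟩ := moment96 (P := P) (ω := ω) (β := β) hI hmeas hmp 2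
  obtain ⟨M, hM⟩ : ∃ M : ℕ → ℝ, ∀ n, M n =
      ∫ x, forceE β h (fun p => ω p x) n (fun s => |(walk s n : ℝ) - vel μ h * n| ^ 2) ∂P := ⟨_, fun _ => rfl⟩
  obtain ⟨V, hV⟩ : ∃ V : ℕ → ℝ, ∀ n, V n = Var[fun x => Real.log (parZ β h (fun p => ω p x) n); P] := ⟨_, fun _ => rfl⟩
  have hV2 : ∀ n, sgm P β h ω n ^ 2 = V n := fun n => by
    rw [hV]
    exact Real.sq_sqrt (variance_nonneg _ _)
  have hV4 : ∀ n, sgm P β h ω n ^ 4 = V n ^ 2 := fun n => by
    rw [← hV2]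
    ring
  have hV0 : ∀ n, 0 ≤ V n := fun n => by
    rw [← hV2]
    positivity
  obtain ⟨c, hc, -, r1, r2, r3⟩ := rel96 (w := wd μ (2 * h)) (E := EE μ (2 * h)) (M := M) (S := sgm P β h ω)
    (W := wth P β h ω (fun v => J μ (2 * h) (v / 2))) (n₁ := max n₁ n₂) ha hb₂ hB₂ ha₁ hA₁ hb hrel
    (fun n hn => (hmo n ((le_max_right _ _).trans hn)).1) (fun n _ => EE_pos n)
    (fun n hn => by rw [hM]; exact (hmo n ((le_max_right _ _).trans hn)).2)
    (fun n hn => ⟨(hsc n ((le_max_left _ _).trans hn)).1, (hsc n ((le_max_left _ _).trans hn)).2.1⟩)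
    fun n hn => (hsc n ((le_max_left _ _).trans hn)).2.2.1
  simp only [hV2, hV4] at r1 r2
  obtain ⟨t1, t2⟩ := spreadQ96 (P := P) (ω := ω) (β := β) hI hmeas hmp hc (r3.mono fun n hn => hn.1)
  obtain ⟨x1, x2, K, v₀, hK, hv₀, hJ⟩ := expQ96 (P := P) (ω := ω) (β := β) hI hmeas hmp hc (r3.mono fun n hn => hn.2)
  -- the rate function near the velocity
  have hIup : ∀ u, |u| ≤ min v₀ ρ → J' (vel μ h + u) - J' (vel μ h) - h * u ≤ K * |u| ^ (3 / 2 + 2 * c) := by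
    intro u hu
    rw [hJe u (hu.trans (min_le_right _ _))]
    exact hJ u (hu.trans (min_le_left _ _))
  have hL : ∀ k u : ℝ, |u| ≤ min v₀ ρ → k * u - (J' (vel μ h + u) - J' (vel μ h) - h * u) ≤
      lam (h + k) - lam h - k * vel μ h := by
    intro k u hu
    have hu1 : |u| ≤ ρ := hu.trans (min_le_right _ _)
    have hvu : |vel μ h + u| < 1 := by
      have := abs_add_le (vel μ h) u
      linarith
    have h1 := (h6 _ hvu).1 ⟨h + k, rfl⟩
    simp only at h1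
    rw [hJv]
    linarith
  obtain ⟨q, h₀, hq, hh₀, hlow⟩ := dual_lower96 (L := fun k => lam (h + k) - lam h - k * vel μ h)
    (I := fun u => J' (vel μ h + u) - J' (vel μ h) - h * u) (K := K) (v₀ := min v₀ ρ) (b := 2 * c) hK (lt_min hv₀ hρ)
    (by positivity) hL hIup
  -- the constants
  obtain ⟨v₁, hv₁, hv₁1, hab1⟩ := rpow_absorb96 (p := 3 / 2 + 2 * c) (q := 3 / 2 + c) hK (by linarith)
  have hq3 : 1 + 1 / (1 / 2 + 2 * c) < 3 := by
    have : 1 / (1 / 2 + 2 * c) < 2 := by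
      rw [div_lt_iff₀ (by positivity)]
      linarith
    linarith
  obtain ⟨d, hd⟩ : ∃ d : ℝ, d = (3 - (1 + 1 / (1 / 2 + 2 * c))) / 2 := ⟨_, rfl⟩
  have hd0 : 0 < d := by rw [hd]; linarith
  obtain ⟨h₁, hh₁, hh₁1, hab2⟩ := rpow_absorb96 (K := 1 / q) (p := 3 - d) (q := 1 + 1 / (1 / 2 + 2 * c)) (by positivity)
    (by rw [hd]; linarith)
  obtain ⟨c', hc'⟩ : ∃ c' : ℝ, c' = min (min (min v₀ ρ) v₁) (min (min h₀ h₁) (min (c / 2) d)) := ⟨_, rfl⟩
  have hc'0 : 0 < c' := by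
    rw [hc']
    positivity
  have hall := hc'.le
  simp only [le_min_iff] at hall
  obtain ⟨⟨⟨k1, k2⟩, k3⟩, ⟨k4, k5⟩, k6, k7⟩ := hall
  have hd3 : 0 < 3 - d := by
    have : 0 < 1 / (1 / 2 + 2 * c) := by positivity
    rw [hd]
    linarith
  have hpow : ∀ {m n : ℕ}, 1 ≤ m → m ≤ n → ∀ p : ℝ, ((n : ℝ) / m) ^ (p + c') ≤ ((n : ℝ) / m) ^ (p + c) := by
    intro m n hm hmn p
    have hm0 : (0 : ℝ) < m := by exact_mod_cast hm
    refine Real.rpow_le_rpow_of_exponent_le ?_ (by linarith)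
    rw [le_div_iff₀ hm0, one_mul]
    exact_mod_cast hmn
  have hM0 : ∀ n, 0 ≤ M n := fun n => by
    rw [hM]
    exact integral_nonneg fun x => (forceE_const' β h (fun p => ω p x) n 0).symm.le.trans
      (forceE_mono' _ _ _ _ fun s => by positivity)
  refine ⟨vel μ h, c', M, V, hc'0, hvelA h, hv1, hM, hV, fun η hη => ?_, ?_, ?_, ?_, ?_, ?_, fun u hu => ?_, fun k hk => ?_⟩
  · obtain ⟨N, hN⟩ := r1 η hη
    refine ⟨N + 1, fun m n hm hmn => ?_⟩
    have hm1 : 1 ≤ m := by omega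
    have hm1' : (1 : ℝ) ≤ m := by exact_mod_cast hm1
    have hmn' : m ≤ n := by
      have h1 : (m : ℝ) ≤ n := by
        refine le_trans ?_ hmn
        nth_rewrite 1 [← Real.rpow_one (m : ℝ)]
        exact Real.rpow_le_rpow_of_exponent_le hm1' (by linarith)
      exact_mod_cast h1
    obtain ⟨g1, g2, g3⟩ := hN m n (by omega) hmn
    have y1 := hM0 m
    have y2 := hV0 n
    exact ⟨(mul_le_mul_of_nonneg_right (hpow hm1 hmn' 1) y1).trans g1,
      (mul_le_mul_of_nonneg_right (hpow hm1 hmn' (1 / 2)) (by positivity)).trans g2,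
      (mul_le_mul_of_nonneg_right (hpow hm1 hmn' 2) (by positivity)).trans g3⟩
  · filter_upwards [r2, eventually_ge_atTop 1] with n hn hn1
    have hn1' : (1 : ℝ) ≤ n := by exact_mod_cast hn1
    obtain ⟨g1, g2, g3⟩ := hn
    have hp : ∀ p : ℝ, (n : ℝ) ^ (p + c') ≤ (n : ℝ) ^ (p + c) := fun p =>
      Real.rpow_le_rpow_of_exponent_le hn1' (by linarith)
    have y2 := hV0 n
    exact ⟨(hp 1).trans g1, (mul_le_mul_of_nonneg_right (hp (1 / 2)) y2).trans g2,
      (mul_le_mul_of_nonneg_right (hp 2) (by positivity)).trans g3⟩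
  · refine squeeze_zero' (Eventually.of_forall fun n => integral_nonneg fun x => forceP_nonneg _ _ _ _ _) ?_ t1
    filter_upwards [eventually_ge_atTop 1] with n hn1
    have hn1' : (1 : ℝ) ≤ n := by exact_mod_cast hn1
    refine integral_mono (forceP_integrable hmeas β h n _) (forceP_integrable hmeas β h n _) fun x =>
      forceP_mono _ _ _ _ fun s hs => ?_
    exact le_trans hs (Real.rpow_le_rpow_of_exponent_le hn1' (by linarith))
  · linarith
  · linarith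
  · linarith
  · have hu0 := abs_nonneg u
    rcases eq_or_lt_of_le hu0 with g0 | g0
    · have hu' : u = 0 := abs_eq_zero.1 g0.symm
      rw [hu', add_zero, mul_zero, sub_self, sub_zero, abs_zero, Real.zero_rpow (by positivity)]
    · refine (hIup u (hu.trans (le_min k1 k2))).trans ((hab1 |u| g0 (hu.trans k3)).trans ?_)
      exact Real.rpow_le_rpow_of_exponent_ge g0 ((hu.trans k3).trans hv₁1) (by linarith)
  · have hk0 := abs_nonneg k
    rcases eq_or_lt_of_le hk0 with g0 | g0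
    · have hk' : k = 0 := abs_eq_zero.1 g0.symm
      rw [hk', add_zero, zero_mul, sub_self, sub_zero, abs_zero, Real.zero_rpow (by linarith)]
    · have g1 := hlow k (hk.trans k4)
      have g2 := hab2 |k| g0 (hk.trans k5)
      have g3 : |k| ^ (3 - d) ≤ q * |k| ^ (1 + 1 / (1 / 2 + 2 * c)) := by
        have g5 := mul_le_mul_of_nonneg_left g2 hq.le
        have e1 : q * (1 / q * |k| ^ (3 - d)) = |k| ^ (3 - d) := by field_simp
        rwa [e1] at g5
      refine le_trans ?_ (g3.trans g1)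
      exact Real.rpow_le_rpow_of_exponent_ge g0 ((hk.trans k5).trans hh₁1) (by linarith)

end Pool.Agent.W_7d29a1_HM
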