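import Pool.Agent.W_7d29a1_HM.NuGe
import Pool.Agent.W_7d29a1_HS.InAll

/-!
MP_7d29a1_pr, N1: SUPERDIFFUSIVITY AT EVERY FORCE, for the objects of `W_7d29a1_HM.ModelH`, from the growth of the width at every
tilt (input: STORM Z at every tilt). (helper96)
-/

set_option autoImplicit false

namespace Pool.Agent.W_7d29a1_HM

open MeasureTheory ProbabilityTheory Filter Topology
open Pool.Agent.W_7d29a1_F Pool.Agent.W_7d29a1_h4g Pool.Agent.W_7d29a1_H Pool.Agent.W_7d29a1_HS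
open Pool.Agent.W_7d29a1_h47 (Lam LamN walk energy endMGF forceP forceE tendsto_logZ EM_of Nondeg_of map_toEnv log_endMGF)
open Pool.Agent.W_7d29a1_SR (toF mp_toF)

/-- The law of the environment, its free energy and the velocities. -/
theorem setup96 {Ω : Type*} [MeasurableSpace Ω] (P : Measure Ω) [IsProbabilityMeasure P]
    (ω : ℕ × ℤ → Ω → ℝ) (hmeas : ∀ p, Measurable (ω p)) (hindep : iIndepFun ω P)
    (hident : ∀ p q, IdentDistrib (ω p) (ω q) P P) (hnc : ¬ ∃ c : ℝ, ∀ᵐ x ∂P, ω (0, 0) x = c)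
    (hexp : ∀ b : ℝ, Integrable (fun x => Real.exp (b * ω (0, 0) x)) P) {β : ℝ} (hβ : 0 < β) :
    ∃ (μ : Measure ℝ) (lam : ℝ → ℝ), IsProbabilityMeasure μ ∧ Pool.Agent.W_7d29a1_h47.EM μ ∧
      Pool.Agent.W_7d29a1_h47.Nondeg μ ∧ MeasurePreserving (fun x => toF β fun p => ω p x) P (law μ) ∧
      Differentiable ℝ lam ∧ deriv lam 0 = 0 ∧
      (∀ h, ∀ᵐ x ∂P, Tendsto (fun n : ℕ => Real.log (endMGF β h (fun p => ω p x) n) / n) atTop (𝓝 (lam h))) ∧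
      ∀ h, vel μ h = deriv lam h := by
  obtain ⟨μ, hμdef⟩ : ∃ μ : Measure ℝ, μ = P.map fun x => β * ω (0, 0) x := ⟨_, rfl⟩
  have hm0 : Measurable fun x => β * ω (0, 0) x := (hmeas _).const_mul β
  have hprob : IsProbabilityMeasure μ := by
    rw [hμdef]
    exact Measure.isProbabilityMeasure_map hm0.aemeasurable
  have hμ : Pool.Agent.W_7d29a1_h47.EM μ := by
    rw [hμdef]
    exact EM_of (hmeas _) hexp β
  have hnd : Pool.Agent.W_7d29a1_h47.Nondeg μ := by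
    rw [hμdef]
    exact Nondeg_of (hmeas _) hnc hβ
  have hmpE := map_toEnv hmeas hindep hident β
  rw [← hμdef] at hmpE
  have hmp := mp_toF hmeas hindep hident β
  rw [← hμdef] at hmp
  have hdL : LamN μ = fun x => Lam μ x - Lam μ 0 := rfl
  have hvel : ∀ h, vel μ h = deriv (LamN μ) h := by
    intro h
    rw [vel_eq hμ hnd, hdL, deriv_sub_const]
  have hdiff : Differentiable ℝ (LamN μ) := by
    intro h
    have h1 : HasDerivAt (lam μ) (sl μ (2 * h)) (2 * h) := (differentiable_lam hμ hnd (2 * h)).hasDerivAt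
    have h2 : Lam μ = fun x => lam μ (2 * x) - x := by
      funext x
      unfold lam
      rw [mul_div_cancel_left₀ _ (two_ne_zero' ℝ)]
      ring
    have h3 : HasDerivAt (fun x : ℝ => 2 * x) 2 h := by simpa using (hasDerivAt_id h).const_mul 2
    have h4 : HasDerivAt (fun x => lam μ (2 * x) - x) (sl μ (2 * h) * 2 - 1) h :=
      (HasDerivAt.comp h h1 h3).sub (hasDerivAt_id h)
    rw [hdL]
    refine DifferentiableAt.sub_const ?_ _
    rw [h2]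
    exact h4.differentiableAt
  refine ⟨μ, LamN μ, hprob, hμ, hnd, hmp, hdiff, ?_, fun h => ?_, hvel⟩
  · have h1 := sl_mir hμ 0 hnd
    rw [neg_zero] at h1
    rw [← hvel 0]
    unfold vel
    rw [mul_zero]
    linarith
  · filter_upwards [hmpE.quasiMeasurePreserving.ae (tendsto_logZ hμ h), hmpE.quasiMeasurePreserving.ae (tendsto_logZ hμ 0)]
      with x hx1 hx2
    refine (hx1.sub hx2).congr fun n => ?_
    rw [log_endMGF, sub_div]

/-- **Superdiffusivity at every force**, along infinitely many lengths. -/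
theorem main_ZF
    (hZ : ∀ (μ : Measure ℝ) [IsProbabilityMeasure μ], Pool.Agent.W_7d29a1_h47.EM μ → Pool.Agent.W_7d29a1_h47.Nondeg μ →
      ∀ s : ℝ, ∃ a : ℝ, 0 < a ∧ ∃ᶠ n : ℕ in atTop, (n : ℝ) ^ (1 / 2 + a) ≤ wd μ s n)
    {Ω : Type*} [MeasurableSpace Ω] (P : Measure Ω) [IsProbabilityMeasure P]
    (ω : ℕ × ℤ → Ω → ℝ) (hmeas : ∀ p, Measurable (ω p)) (hindep : iIndepFun ω P)
    (hident : ∀ p q, IdentDistrib (ω p) (ω q) P P) (hnc : ¬ ∃ c : ℝ, ∀ᵐ x ∂P, ω (0, 0) x = c)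
    (hexp : ∀ b : ℝ, Integrable (fun x => Real.exp (b * ω (0, 0) x)) P) {β : ℝ} (hβ : 0 < β) :
    ∃ lam : ℝ → ℝ, Differentiable ℝ lam ∧ deriv lam 0 = 0 ∧
      (∀ h, ∀ᵐ x ∂P, Tendsto (fun n : ℕ => Real.log (endMGF β h (fun p => ω p x) n) / n) atTop (𝓝 (lam h))) ∧
      ∀ h : ℝ, ∃ c : ℝ, 0 < c ∧ 1 / 2 + c ≤ nuF P β h (deriv lam h) ω ∧ ∀ ε : ℝ, 0 < ε → ∃ᶠ n : ℕ in atTop,
        (n : ℝ) ^ (1 + c) ≤ ∫ x, fE β h (fun p => ω p x) n (fun s => |(walk s n : ℝ) - deriv lam h * n| ^ 2) ∂P ∧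
        ∫ x, fP β h (fun p => ω p x) n {s | |(walk s n : ℝ) - deriv lam h * n| ≤ (n : ℝ) ^ (1 / 2 + c)} ∂P ≤ ε := by
  simp only [fE_eq, fP_eq, nuF_eq]
  obtain ⟨μ, lam, hprob, hμ, hnd, hmp, hdiff, hd0, hlim, hvel⟩ := setup96 P ω hmeas hindep hident hnc hexp hβ
  refine ⟨lam, hdiff, hd0, hlim, fun h => ?_⟩
  rw [← hvel h]
  obtain ⟨c₀, C₀, n₀, hI⟩ := in_tilt hμ hnd (2 * h)
  obtain ⟨a, ha, hwa⟩ := hZ μ hμ hnd (2 * h)
  obtain ⟨h1, h2⟩ := ev_Z96 (P := P) (ω := ω) (β := β) hI hmeas hmp ha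
  refine ⟨a / 2, by positivity, nuH_ge96 hmeas fun ε hε => ?_, fun ε hε => ?_⟩
  · refine (hwa.and_eventually (h2 ε hε)).mono fun n hn => ?_
    refine le_trans (integral_mono (forceP_integrable hmeas β h n _) (forceP_integrable hmeas β h n _) fun x =>
      forceP_mono _ _ _ _ fun s hs => ?_) (hn.2 hn.1)
    exact hs n le_rfl
  · exact (hwa.and_eventually (h1.and (h2 ε hε))).mono fun n hn => ⟨hn.2.1 hn.1, hn.2.2 hn.1⟩

/-- **Superdiffusivity at every force**, at all large lengths. -/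
theorem main_ZE
    (hZ : ∀ (μ : Measure ℝ) [IsProbabilityMeasure μ], Pool.Agent.W_7d29a1_h47.EM μ → Pool.Agent.W_7d29a1_h47.Nondeg μ →
      ∀ s : ℝ, ∃ a : ℝ, 0 < a ∧ ∀ᶠ n : ℕ in atTop, (n : ℝ) ^ (1 / 2 + a) ≤ wd μ s n)
    {Ω : Type*} [MeasurableSpace Ω] (P : Measure Ω) [IsProbabilityMeasure P]
    (ω : ℕ × ℤ → Ω → ℝ) (hmeas : ∀ p, Measurable (ω p)) (hindep : iIndepFun ω P)
    (hident : ∀ p q, IdentDistrib (ω p) (ω q) P P) (hnc : ¬ ∃ c : ℝ, ∀ᵐ x ∂P, ω (0, 0) x = c)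
    (hexp : ∀ b : ℝ, Integrable (fun x => Real.exp (b * ω (0, 0) x)) P) {β : ℝ} (hβ : 0 < β) :
    ∃ lam : ℝ → ℝ, Differentiable ℝ lam ∧ deriv lam 0 = 0 ∧
      (∀ h, ∀ᵐ x ∂P, Tendsto (fun n : ℕ => Real.log (endMGF β h (fun p => ω p x) n) / n) atTop (𝓝 (lam h))) ∧
      ∀ h : ℝ, ∃ c : ℝ, 0 < c ∧ 1 / 2 + c ≤ nuF P β h (deriv lam h) ω ∧
        (∀ᶠ n : ℕ in atTop, (n : ℝ) ^ (1 + c) ≤
          ∫ x, fE β h (fun p => ω p x) n (fun s => |(walk s n : ℝ) - deriv lam h * n| ^ 2) ∂P) ∧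
        Tendsto (fun n : ℕ => ∫ x, fP β h (fun p => ω p x) n
          {s | |(walk s n : ℝ) - deriv lam h * n| ≤ (n : ℝ) ^ (1 / 2 + c)} ∂P) atTop (𝓝 0) := by
  simp only [fE_eq, fP_eq, nuF_eq]
  obtain ⟨μ, lam, hprob, hμ, hnd, hmp, hdiff, hd0, hlim, hvel⟩ := setup96 P ω hmeas hindep hident hnc hexp hβ
  refine ⟨lam, hdiff, hd0, hlim, fun h => ?_⟩
  rw [← hvel h]
  obtain ⟨c₀, C₀, n₀, hI⟩ := in_tilt hμ hnd (2 * h)
  obtain ⟨a, ha, hwa⟩ := hZ μ hμ hnd (2 * h)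
  obtain ⟨h1, h2⟩ := ev_Z96 (P := P) (ω := ω) (β := β) hI hmeas hmp ha
  refine ⟨a / 2, by positivity, nuH_ge96 hmeas fun ε hε => ?_, ?_, ?_⟩
  · refine (hwa.and (h2 ε hε)).frequently.mono fun n hn => ?_
    refine le_trans (integral_mono (forceP_integrable hmeas β h n _) (forceP_integrable hmeas β h n _) fun x =>
      forceP_mono _ _ _ _ fun s hs => ?_) (hn.2 hn.1)
    exact hs n le_rfl
  · exact (hwa.and h1).mono fun n hn => hn.2 hn.1
  · rw [Metric.tendsto_atTop']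
    intro ε hε
    obtain ⟨N, hN⟩ := eventually_atTop.1 (hwa.and (h2 (ε / 2) (by positivity)))
    refine ⟨N, fun n hn => ?_⟩
    have h3 := (hN n hn.le).2 (hN n hn.le).1
    rw [Real.dist_eq, sub_zero, abs_of_nonneg (integral_nonneg fun x => forceP_nonneg _ _ _ _ _)]
    linarith

end Pool.Agent.W_7d29a1_HM
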