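import Pool.Agent.W_7d29a1_HM.FinalZ

/-!
MP_7d29a1_pr, N1 AT ALL SCALES: superdiffusivity at every force, from every length to every larger one, for the objects of
`W_7d29a1_HM.ModelH`, from the growth of the width between any two lengths at every tilt (input: the second storey of STORM Z).
(helper96)
-/

set_option autoImplicit false

namespace Pool.Agent.W_7d29a1_HM

open MeasureTheory ProbabilityTheory Filter Topology
open Pool.Agent.W_7d29a1_F Pool.Agent.W_7d29a1_h4g Pool.Agent.W_7d29a1_H Pool.Agent.W_7d29a1_HS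
open Pool.Agent.W_7d29a1_h47 (Lam LamN walk energy endMGF forceP forceE tendsto_logZ EM_of Nondeg_of map_toEnv log_endMGF)
open Pool.Agent.W_7d29a1_SR (toF mp_toF)

section

variable {μ : Measure ℝ} [IsProbabilityMeasure μ] {h c C : ℝ} {n₀ : ℕ}
variable {Ω : Type*} [MeasurableSpace Ω] {P : Measure Ω} [IsProbabilityMeasure P] {ω : ℕ × ℤ → Ω → ℝ} {β : ℝ}

/-- The moments of the displacement of the end point and of the path are of the order of the powers of the width. -/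
theorem moment96 (hI : In μ (2 * h) c C n₀) (hmeas : ∀ p, Measurable (ω p))
    (hmp : MeasurePreserving (fun x => toF β fun p => ω p x) P (law μ)) (q : ℕ) :
    ∃ b B : ℝ, 0 < b ∧ 0 < B ∧ ∃ n₁ : ℕ, 1 ≤ n₁ ∧ ∀ n, n₁ ≤ n → 1 ≤ wd μ (2 * h) n ∧
      b * wd μ (2 * h) n ^ q ≤ ∫ x, forceE β h (fun p => ω p x) n (fun s => |(walk s n : ℝ) - vel μ h * n| ^ q) ∂P ∧
      ∫ x, forceE β h (fun p => ω p x) n (fun s => |(walk s n : ℝ) - vel μ h * n| ^ q) ∂P ≤ B * wd μ (2 * h) n ^ q := by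
  obtain ⟨a₁, A₁, b, B, -, -, hb, hB, n₁, hn₁, hsc⟩ := scales (P := P) (β := β) (ω := ω) hI hmp
  obtain ⟨b', hb', n₂, hM⟩ := Pool.Agent.W_7d29a1_HE.endM_P (P := P) (ω := ω) (β := β) hI hmeas hmp q
  obtain ⟨A, a, g, ha, hg, n₃, hex⟩ := exitS_P (P := P) (β := β) (ω := ω) hI hmeas hmp
  obtain ⟨b₁, B₁, -, hB₁, hmo⟩ := mx_moment_one (A := |A|) (a := a) (g := g) (c := 1) (d := 1) (abs_nonneg A) ha hg one_pos
    one_pos q
  refine ⟨b' * b ^ q, B₁ * B ^ q, by positivity, by positivity, max n₁ (max n₂ n₃), hn₁.trans (le_max_left _ _),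
    fun n hn => ?_⟩
  obtain ⟨-, -, s1, s2, s3⟩ := hsc n ((le_max_left _ _).trans hn)
  have h2 := hM n (((le_max_left _ _).trans (le_max_right _ _)).trans hn)
  have hw0 : 0 < wth P β h ω (fun v => J μ (2 * h) (v / 2)) n := lt_of_lt_of_le (by positivity) s1
  refine ⟨s3, ?_, ?_⟩
  · refine le_trans ?_ h2
    calc b' * b ^ q * wd μ (2 * h) n ^ q = b' * (b * wd μ (2 * h) n) ^ q := by rw [mul_pow]; ring
      _ ≤ _ := mul_le_mul_of_nonneg_left (pow_le_pow_left₀ (by positivity) s1 q) hb'.le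
  · refine (Pool.Agent.W_7d29a1_HE.end_le_mx hmeas β h (vel μ h) n q).trans ?_
    have h3 := (hmo Ω P ω β h (vel μ h) hmeas n _ hw0).1 fun R hR => by
      have h4 := hex n (((le_max_right _ _).trans (le_max_right _ _)).trans hn) R hR
      rw [integral_sub (integrable_const _) (forceP_integrable hmeas β h n _), integral_const, probReal_univ, one_smul]
      exact h4.trans (mul_le_mul_of_nonneg_right (le_abs_self A) (Real.exp_pos _).le)
    refine h3.trans ?_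
    calc B₁ * wth P β h ω (fun v => J μ (2 * h) (v / 2)) n ^ q ≤ B₁ * (B * wd μ (2 * h) n) ^ q :=
          mul_le_mul_of_nonneg_left (pow_le_pow_left₀ hw0.le s2 q) hB₁.le
      _ = B₁ * B ^ q * wd μ (2 * h) n ^ q := by rw [mul_pow]; ring

end

/-- **Superdiffusivity at every force and at all scales.** -/
theorem main_ZS
    (hZ : ∀ (μ : Measure ℝ) [IsProbabilityMeasure μ], Pool.Agent.W_7d29a1_h47.EM μ → Pool.Agent.W_7d29a1_h47.Nondeg μ →
      ∀ s : ℝ, ∃ a : ℝ, 0 < a ∧ ∃ N : ℕ, ∀ m n : ℕ, N ≤ m → m ≤ n →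
        a * ((n : ℝ) / m) ^ (1 / 2 + a) * wd μ s m ≤ wd μ s n)
    {Ω : Type*} [MeasurableSpace Ω] (P : Measure Ω) [IsProbabilityMeasure P]
    (ω : ℕ × ℤ → Ω → ℝ) (hmeas : ∀ p, Measurable (ω p)) (hindep : iIndepFun ω P)
    (hident : ∀ p q, IdentDistrib (ω p) (ω q) P P) (hnc : ¬ ∃ c : ℝ, ∀ᵐ x ∂P, ω (0, 0) x = c)
    (hexp : ∀ b : ℝ, Integrable (fun x => Real.exp (b * ω (0, 0) x)) P) {β : ℝ} (hβ : 0 < β) :
    ∃ lam : ℝ → ℝ, Differentiable ℝ lam ∧ deriv lam 0 = 0 ∧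
      (∀ h, ∀ᵐ x ∂P, Tendsto (fun n : ℕ => Real.log (endMGF β h (fun p => ω p x) n) / n) atTop (𝓝 (lam h))) ∧
      ∀ h : ℝ, ∃ (c : ℝ) (N : ℕ) (M : ℕ → ℝ), 0 < c ∧
        (∀ n, M n = ∫ x, fE β h (fun p => ω p x) n (fun s => |(walk s n : ℝ) - deriv lam h * n| ^ 2) ∂P) ∧
        (∀ m n : ℕ, N ≤ m → m ≤ n → c * ((n : ℝ) / m) ^ (1 + c) * M m ≤ M n) ∧
        (∀ᶠ n : ℕ in atTop, (n : ℝ) ^ (1 + c) ≤ M n) ∧
        Tendsto (fun n : ℕ => ∫ x, fP β h (fun p => ω p x) n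
          {s | |(walk s n : ℝ) - deriv lam h * n| ≤ (n : ℝ) ^ (1 / 2 + c)} ∂P) atTop (𝓝 0) ∧
        1 / 2 + c ≤ nuF P β h (deriv lam h) ω := by
  simp only [fE_eq, fP_eq, nuF_eq]
  obtain ⟨μ, lam, hprob, hμ, hnd, hmp, hdiff, hd0, hlim, hvel⟩ := setup96 P ω hmeas hindep hident hnc hexp hβ
  refine ⟨lam, hdiff, hd0, hlim, fun h => ?_⟩
  rw [← hvel h]
  obtain ⟨c₀, C₀, n₀, hI⟩ := in_tilt hμ hnd (2 * h)
  obtain ⟨b, B, hb, hB, n₁, hn₁, hmo⟩ := moment96 (P := P) (ω := ω) (β := β) hI hmeas hmp 2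
  obtain ⟨a, ha, N₀, hwa⟩ := hZ μ hμ hnd (2 * h)
  -- the width at all large lengths
  obtain ⟨N, hN⟩ : ∃ N : ℕ, N = max N₀ n₁ := ⟨_, rfl⟩
  have hN0 : N₀ ≤ N := by rw [hN]; exact le_max_left _ _
  have hN1 : n₁ ≤ N := by rw [hN]; exact le_max_right _ _
  have hNp : (0 : ℝ) < N := by exact_mod_cast (hn₁.trans hN1)
  have hev : ∀ᶠ n : ℕ in atTop, (n : ℝ) ^ (1 / 2 + a / 2) ≤ wd μ (2 * h) n := by
    filter_upwards [eventually_ge_atTop N, ev_absorb (b := 1 / 2 + a) (b' := 1 / 2 + a / 2)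
      (K := a * (1 / (N : ℝ) ^ (1 / 2 + a))) (by positivity) (by linarith)] with n g1 g2
    have h1 := hwa N n hN0 g1
    have h2 := (hmo N hN1).1
    have hn0 : (0 : ℝ) < n := hNp.trans_le (by exact_mod_cast g1)
    rw [Real.div_rpow hn0.le hNp.le] at h1
    have h3 : 0 < (N : ℝ) ^ (1 / 2 + a) := Real.rpow_pos_of_pos hNp _
    have h4 : 0 < (n : ℝ) ^ (1 / 2 + a) := Real.rpow_pos_of_pos hn0 _
    refine g2.trans (le_trans ?_ h1)
    calc a * (1 / (N : ℝ) ^ (1 / 2 + a)) * (n : ℝ) ^ (1 / 2 + a)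
        = a * ((n : ℝ) ^ (1 / 2 + a) / (N : ℝ) ^ (1 / 2 + a)) * 1 := by ring
      _ ≤ _ := mul_le_mul_of_nonneg_left h2 (by positivity)
  obtain ⟨h1, h2⟩ := ev_Z96 (P := P) (ω := ω) (β := β) hI hmeas hmp (a := a / 2) (by positivity)
  obtain ⟨c, hc⟩ : ∃ c : ℝ, c = min (a / 4) (b * a ^ 2 / B) := ⟨_, rfl⟩
  have hc0 : 0 < c := by rw [hc]; positivity
  have hca : c ≤ a / 4 := by rw [hc]; exact min_le_left _ _
  have hcb : c ≤ b * a ^ 2 / B := by rw [hc]; exact min_le_right _ _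
  refine ⟨c, N, fun n => ∫ x, forceE β h (fun p => ω p x) n (fun s => |(walk s n : ℝ) - vel μ h * n| ^ 2) ∂P, hc0,
    fun _ => rfl, fun m n hm hmn => ?_, ?_, ?_, ?_⟩
  · obtain ⟨hw1, -, hw2⟩ := hmo m (hN1.trans hm)
    obtain ⟨-, hw3, -⟩ := hmo n (hN1.trans (hm.trans hmn))
    have h3 := hwa m n (hN0.trans hm) hmn
    have hm0 : (0 : ℝ) < m := hNp.trans_le (by exact_mod_cast hm)
    have hr : (1 : ℝ) ≤ (n : ℝ) / m := by
      rw [le_div_iff₀ hm0, one_mul]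
      exact_mod_cast hmn
    have hr0 : (0 : ℝ) < (n : ℝ) / m := by linarith
    have hwm : 0 < wd μ (2 * h) m := by linarith
    have h4 : (a * ((n : ℝ) / m) ^ (1 / 2 + a) * wd μ (2 * h) m) ^ 2 ≤ wd μ (2 * h) n ^ 2 :=
      pow_le_pow_left₀ (by positivity) h3 2
    have h5 : ((n : ℝ) / m) ^ (1 + c) ≤ (((n : ℝ) / m) ^ (1 / 2 + a)) ^ 2 := by
      rw [← Real.rpow_natCast (((n : ℝ) / m) ^ (1 / 2 + a)), ← Real.rpow_mul hr0.le]
      refine Real.rpow_le_rpow_of_exponent_le hr ?_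
      push_cast
      linarith
    have h6 : c * B ≤ b * a ^ 2 := by
      rw [le_div_iff₀ hB] at hcb
      exact hcb
    calc c * ((n : ℝ) / m) ^ (1 + c) *
          ∫ x, forceE β h (fun p => ω p x) m (fun s => |(walk s m : ℝ) - vel μ h * m| ^ 2) ∂P
        ≤ c * (((n : ℝ) / m) ^ (1 / 2 + a)) ^ 2 * (B * wd μ (2 * h) m ^ 2) :=
          mul_le_mul (mul_le_mul_of_nonneg_left h5 hc0.le) hw2
            (integral_nonneg fun x => (forceE_const' β h (fun p => ω p x) m 0).symm.le.trans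
              (forceE_mono' _ _ _ _ fun s => by positivity)) (by positivity)
      _ = c * B * ((((n : ℝ) / m) ^ (1 / 2 + a)) ^ 2 * wd μ (2 * h) m ^ 2) := by ring
      _ ≤ b * a ^ 2 * ((((n : ℝ) / m) ^ (1 / 2 + a)) ^ 2 * wd μ (2 * h) m ^ 2) :=
          mul_le_mul_of_nonneg_right h6 (by positivity)
      _ = b * (a * ((n : ℝ) / m) ^ (1 / 2 + a) * wd μ (2 * h) m) ^ 2 := by ring
      _ ≤ b * wd μ (2 * h) n ^ 2 := mul_le_mul_of_nonneg_left h4 hb.le
      _ ≤ _ := hw3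
  · filter_upwards [hev, h1, eventually_ge_atTop 1] with n g1 g2 g3
    have hn1 : (1 : ℝ) ≤ n := by exact_mod_cast g3
    exact (Real.rpow_le_rpow_of_exponent_le hn1 (by linarith)).trans (g2 g1)
  · rw [Metric.tendsto_atTop']
    intro ε hε
    obtain ⟨N', hN'⟩ := eventually_atTop.1 ((hev.and (h2 (ε / 2) (by positivity))).and (eventually_ge_atTop 1))
    refine ⟨N', fun n hn => ?_⟩
    obtain ⟨⟨g1, g2⟩, g3⟩ := hN' n hn.le
    have hn1 : (1 : ℝ) ≤ n := by exact_mod_cast g3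
    have h3 : ∫ x, forceP β h (fun p => ω p x) n {s | |(walk s n : ℝ) - vel μ h * n| ≤ (n : ℝ) ^ (1 / 2 + c)} ∂P ≤ ε / 2 := by
      refine le_trans (integral_mono (forceP_integrable hmeas β h n _) (forceP_integrable hmeas β h n _) fun x =>
        forceP_mono _ _ _ _ fun s hs => ?_) (g2 g1)
      exact le_trans hs (Real.rpow_le_rpow_of_exponent_le hn1 (by linarith))
    rw [Real.dist_eq, sub_zero, abs_of_nonneg (integral_nonneg fun x => forceP_nonneg _ _ _ _ _)]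
    linarith
  · refine nuH_ge96 hmeas fun ε hε => ?_
    refine ((hev.and (h2 ε hε)).and (eventually_ge_atTop 1)).frequently.mono fun n hn => ?_
    obtain ⟨⟨g1, g2⟩, g3⟩ := hn
    have hn1 : (1 : ℝ) ≤ n := by exact_mod_cast g3
    refine le_trans (integral_mono (forceP_integrable hmeas β h n _) (forceP_integrable hmeas β h n _) fun x =>
      forceP_mono _ _ _ _ fun s hs => ?_) (g2 g1)
    exact le_trans (hs n le_rfl) (Real.rpow_le_rpow_of_exponent_le hn1 (by linarith))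

end Pool.Agent.W_7d29a1_HM
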