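import Pool.Agent.W_7d29a1_h47q.ModelQ

/-!
# The directed polymer in dimension `1 + 1` with a force `h`

Walks of length `n` are step sequences `s : Fin n → Bool` of simple random walk on `ℤ` (`Pool/Agent/W_7d29a1_h47/Model.lean`):
`walk s i` is the position `S_i` and `energy η s = ∑_{i=1}^n η (i, S_i)`. The polymer with the force `h` is the polymer measure
with the additional density proportional to `e ^ (h S_n)`; for `h = 0` it is the polymer of the problem.
-/

set_option autoImplicit false

namespace Pool.Agent.W_7d29a1_HM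

open MeasureTheory ProbabilityTheory Filter Topology
open Pool.Agent.W_7d29a1_h47 (walk energy)

noncomputable section

/-- The partition function `Z_n(h) = E exp (h S_n + β ∑_{i=1}^n η (i, S_i))`. -/
def fZ (β h : ℝ) (η : ℕ × ℤ → ℝ) (n : ℕ) : ℝ :=
  (∑ s : Fin n → Bool, Real.exp (h * (walk s n : ℝ) + β * energy η s)) / 2 ^ n

/-- The expectation `E_{n,h}` of a function `G` of the walk under the polymer measure with the force `h`. -/
def fE (β h : ℝ) (η : ℕ × ℤ → ℝ) (n : ℕ) (G : (Fin n → Bool) → ℝ) : ℝ :=
  (∑ s : Fin n → Bool, G s * Real.exp (h * (walk s n : ℝ) + β * energy η s)) /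
    ∑ s : Fin n → Bool, Real.exp (h * (walk s n : ℝ) + β * energy η s)

open Classical in
/-- The probability `P_{n,h} (A)` of a set `A` of walks under the polymer measure with the force `h`. -/
def fP (β h : ℝ) (η : ℕ × ℤ → ℝ) (n : ℕ) (A : Set (Fin n → Bool)) : ℝ := fE β h η n fun s => if s ∈ A then 1 else 0

/-- The maximal displacement `max_{0 ≤ i ≤ n} |S_i - v i|` from the line of velocity `v`. -/
def mxv (v : ℝ) {n : ℕ} (s : Fin n → Bool) : ℝ :=
  (Finset.range (n + 1)).sup' Finset.nonempty_range_add_one fun i => |(walk s i : ℝ) - v * i|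

variable {Ω : Type*} [MeasurableSpace Ω]

/-- The wandering exponent of the polymer with the force `h` around the line of velocity `v`: the infimum of the `a > 0` such
that `∫ liminf P_{n,h} (max_{i ≤ n} |S_i - v i| ≤ n ^ a) = 1`. For `h = v = 0` it is the exponent `ν` of the problem. -/
def nuF (P : Measure Ω) (β h v : ℝ) (ω : ℕ × ℤ → Ω → ℝ) : ℝ :=
  sInf {a | 0 < a ∧ ∫ x, liminf (fun n : ℕ => fP β h (fun p => ω p x) n {s | mxv v s ≤ (n : ℝ) ^ a}) atTop ∂P = 1}

/-- The fluctuation exponent of the partition function with the force `h`: the supremum of the `a > 0` such that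
`Var (log Z_n(h)) ≥ n ^ (2 a)` for all large `n`. For `h = 0` it is the exponent `χ` of the problem. -/
def chiF (P : Measure Ω) (β h : ℝ) (ω : ℕ × ℤ → Ω → ℝ) : ℝ :=
  sSup {a | 0 < a ∧ ∀ᶠ n : ℕ in atTop, (n : ℝ) ^ (2 * a) ≤ Var[fun x => Real.log (fZ β h (fun p => ω p x) n); P]}

end

end Pool.Agent.W_7d29a1_HM
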