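import Pool.Agent.W_7d29a1_HM.Conv
import Pool.Agent.W_7d29a1_HE.Ei
import Pool.Agent.W_7d29a1_HS.Main3
import Pool.Agent.W_7d29a1_H.MirH52

/-!
MP_7d29a1_pr, STORM Z at every force: superdiffusivity on the probability space of the problem from the growth of the width `wd` at
the tilt `2 h` (models: helper46's `W_7d29a1_Z46.MainZ`, `MainZF` at the force `0`). (helper96)
-/

set_option autoImplicit false

namespace Pool.Agent.W_7d29a1_HM

open MeasureTheory ProbabilityTheory Filter Topology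
open Pool.Agent.W_7d29a1_F Pool.Agent.W_7d29a1_h4g Pool.Agent.W_7d29a1_H Pool.Agent.W_7d29a1_HS
open Pool.Agent.W_7d29a1_h47 (Lam LamN walk energy polE endMGF endP forceP forceE tendsto_logZ EM_of Nondeg_of map_toEnv
  log_endMGF)
open Pool.Agent.W_7d29a1_SR (toF mp_toF wid abs_walk_le ae_tendsto_zero_of_sum)

section nu

variable {Ω : Type*} [MeasurableSpace Ω] {P : Measure Ω} [IsProbabilityMeasure P] {ω : ℕ × ℤ → Ω → ℝ} {β : ℝ}

/-- The liminf of probabilities whose means are small infinitely often vanishes almost surely. -/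
theorem liminf_zero96 {g : ℕ → Ω → ℝ} (hm : ∀ n, Measurable (g n)) (h0 : ∀ n x, 0 ≤ g n x) (h1 : ∀ n x, g n x ≤ 1)
    (hs : ∀ ε : ℝ, 0 < ε → ∃ᶠ n in atTop, ∫ x, g n x ∂P ≤ ε) :
    ∀ᵐ x ∂P, liminf (fun n => g n x) atTop = 0 := by
  have hi : ∀ n, Integrable (g n) P := fun n => by
    refine Integrable.of_bound (hm n).aestronglyMeasurable 1 (Eventually.of_forall fun x => ?_)
    rw [Real.norm_eq_abs, abs_of_nonneg (h0 n x)]
    exact h1 n x
  -- a sparse subsequence
  obtain ⟨φ, hφ, hφs⟩ := extraction_forall_of_frequently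
    (P := fun k n => ∫ x, g n x ∂P ≤ (1 / 2 : ℝ) ^ k) fun k => hs _ (by positivity)
  have hsum : Summable fun k => ∫ x, g (φ k) x ∂P :=
    Summable.of_nonneg_of_le (fun k => integral_nonneg fun x => h0 _ x) hφs
      (summable_geometric_of_lt_one (by norm_num) (by norm_num))
  have h2 := ae_tendsto_zero_of_sum (P := P) (f := fun k => g (φ k)) (fun k => hm _) (fun k x => h0 _ x)
    (fun k => hi _) hsum
  filter_upwards [h2] with x hx
  have hb1 : IsBoundedUnder (· ≥ ·) atTop fun n => g n x :=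
    ⟨0, by
      rw [eventually_map]
      exact Eventually.of_forall fun n => h0 n x⟩
  have hb2 : IsCoboundedUnder (· ≥ ·) atTop fun n => g n x := by
    refine IsBoundedUnder.isCoboundedUnder_ge ⟨1, ?_⟩
    rw [eventually_map]
    exact Eventually.of_forall fun n => h1 n x
  refine le_antisymm ?_ ?_
  · refine le_of_forall_pos_le_add fun ε hε => ?_
    rw [zero_add]
    refine liminf_le_of_frequently_le ?_ hb1
    have h3 : ∀ᶠ k in atTop, g (φ k) x ≤ ε := (hx.eventually (gt_mem_nhds hε)).mono fun k hk => le_of_lt hk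
    rw [frequently_atTop]
    intro N
    obtain ⟨k, hk1, hk2⟩ := (h3.and (eventually_ge_atTop N)).exists
    exact ⟨φ k, hk2.trans (hφ.id_le k), hk1⟩
  · exact le_liminf_of_le hb2 (Eventually.of_forall fun n => h0 n x)

/-- A lower bound of the wandering exponent at the force `h`: the tubes of radius `n ^ b` are not typical for infinitely many
`n`. -/
theorem nuH_ge96 (hmeas : ∀ p, Measurable (ω p)) {h v b : ℝ}
    (hs : ∀ ε : ℝ, 0 < ε → ∃ᶠ n : ℕ in atTop, ∫ x, forceP β h (fun p => ω p x) n (bal n v ((n : ℝ) ^ b)) ∂P ≤ ε) :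
    b ≤ nuH P β h v ω := by
  unfold nuH
  refine le_csInf ⟨2, two_pos, ?_⟩ ?_
  · have h1 : ∀ x : Ω, liminf (fun n : ℕ => forceP β h (fun p => ω p x) n (bal n v ((n : ℝ) ^ (2 : ℝ)))) atTop = 1 := by
      intro x
      refine Tendsto.liminf_eq (tendsto_const_nhds.congr' ?_)
      obtain ⟨N, hN⟩ := exists_nat_ge (1 + |v|)
      filter_upwards [eventually_ge_atTop N] with n hn
      have e : bal n v ((n : ℝ) ^ (2 : ℝ)) = Set.univ := by
        refine Set.eq_univ_of_forall fun s i hi => ?_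
        have h2 := abs_walk_le s i
        have h3 : (i : ℝ) ≤ n := by exact_mod_cast hi
        have h4 : |v * (i : ℝ)| ≤ |v| * n := by
          rw [abs_mul, Nat.abs_cast]
          exact mul_le_mul_of_nonneg_left h3 (abs_nonneg v)
        have h5 := abs_sub (walk s i : ℝ) (v * i)
        have h6 : (1 + |v| : ℝ) ≤ n := hN.trans (by exact_mod_cast hn)
        have h7 : (n : ℝ) ^ (2 : ℝ) = n * n := by
          rw [Real.rpow_two]
          ring
        have hn0 : (0 : ℝ) ≤ n := Nat.cast_nonneg n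
        rw [h7]
        nlinarith
      rw [e]
      exact (forceP_univ β h (fun p => ω p x) n).symm
    show ∫ x, liminf (fun n : ℕ => forceP β h (fun p => ω p x) n (bal n v ((n : ℝ) ^ (2 : ℝ)))) atTop ∂P = 1
    simp only [h1, integral_const, probReal_univ, one_smul]
  · rintro a ⟨ha0, ha⟩
    by_contra hab
    push Not at hab
    have h2 := liminf_zero96 (P := P) (g := fun (n : ℕ) x => forceP β h (fun p => ω p x) n (bal n v ((n : ℝ) ^ a)))
      (fun n => forceP_meas hmeas β h n _) (fun n x => forceP_nonneg _ _ _ _ _) (fun n x => forceP_le_one _ _ _ _ _)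
      fun ε hε => by
        refine ((hs ε hε).and_eventually (eventually_ge_atTop 1)).mono fun n hn => ?_
        refine le_trans (integral_mono (forceP_integrable hmeas β h n _) (forceP_integrable hmeas β h n _) fun x => ?_) hn.1
        refine forceP_mono _ _ _ _ fun s hs i hi => (hs i hi).trans ?_
        exact Real.rpow_le_rpow_of_exponent_le (by exact_mod_cast hn.2) hab.le
    rw [integral_congr_ae h2, integral_zero] at ha
    exact zero_ne_one ha

end nu

variable {μ : Measure ℝ} [IsProbabilityMeasure μ] {h c C : ℝ} {n₀ : ℕ}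
variable {Ω : Type*} [MeasurableSpace Ω] {P : Measure Ω} [IsProbabilityMeasure P] {ω : ℕ × ℤ → Ω → ℝ} {β : ℝ}

/-- The end point is spread at the scales at which the width is large. -/
theorem ev_Z96 (hI : In μ (2 * h) c C n₀) (hmeas : ∀ p, Measurable (ω p))
    (hmp : MeasurePreserving (fun x => toF β fun p => ω p x) P (law μ)) {a : ℝ} (ha : 0 < a) :
    (∀ᶠ n : ℕ in atTop, (n : ℝ) ^ (1 / 2 + a) ≤ wd μ (2 * h) n → (n : ℝ) ^ (1 + a / 2) ≤
      ∫ x, forceE β h (fun p => ω p x) n (fun s => |(walk s n : ℝ) - vel μ h * n| ^ 2) ∂P) ∧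
    ∀ ε : ℝ, 0 < ε → ∀ᶠ n : ℕ in atTop, (n : ℝ) ^ (1 / 2 + a) ≤ wd μ (2 * h) n →
      ∫ x, forceP β h (fun p => ω p x) n {s | |(walk s n : ℝ) - vel μ h * n| ≤ (n : ℝ) ^ (1 / 2 + a / 2)} ∂P ≤ ε := by
  obtain ⟨a₁, A₁, b, B, -, -, hb, hB, n₁, hn₁, hsc⟩ := scales (P := P) (β := β) (ω := ω) hI hmp
  obtain ⟨b', hb', n₂, hM⟩ := Pool.Agent.W_7d29a1_HE.endM_P (P := P) (ω := ω) (β := β) hI hmeas hmp 2
  refine ⟨?_, fun ε hε => ?_⟩
  · filter_upwards [eventually_ge_atTop n₁, eventually_ge_atTop n₂, eventually_ge_atTop 1,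
      ev_absorb (b := 1 + 2 * a) (b' := 1 + a / 2) (K := b' * b ^ 2) (by positivity) (by linarith)] with n g2 g3 g5 g4 g1
    obtain ⟨-, -, s1, -, -⟩ := hsc n g2
    have hn0 : (0 : ℝ) < n := by exact_mod_cast g5
    have h2 := hM n g3
    refine le_trans ?_ h2
    have h4 : 0 ≤ b * (n : ℝ) ^ (1 / 2 + a) := by positivity
    have h5 : b * (n : ℝ) ^ (1 / 2 + a) ≤ wth P β h ω (fun v => J μ (2 * h) (v / 2)) n :=
      (mul_le_mul_of_nonneg_left g1 hb.le).trans s1
    calc (n : ℝ) ^ (1 + a / 2) ≤ b' * b ^ 2 * (n : ℝ) ^ (1 + 2 * a) := g4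
      _ = b' * (b * (n : ℝ) ^ (1 / 2 + a)) ^ 2 := by
          rw [mul_pow, ← Real.rpow_natCast ((n : ℝ) ^ (1 / 2 + a)), ← Real.rpow_mul hn0.le]
          have e : (1 / 2 + a) * ((2 : ℕ) : ℝ) = 1 + 2 * a := by
            push_cast
            ring
          rw [e]
          ring
      _ ≤ _ := mul_le_mul_of_nonneg_left (pow_le_pow_left₀ h4 h5 2) hb'.le
  · obtain ⟨c₁, hc₁, n₃, hE⟩ := Pool.Agent.W_7d29a1_HE.endS_P (P := P) (ω := ω) (β := β) hI hmeas hmp hε
    filter_upwards [eventually_ge_atTop n₁, eventually_ge_atTop n₃,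
      ev_absorb (b := 1 / 2 + a) (b' := 1 / 2 + a / 2) (K := c₁ * b) (by positivity) (by linarith)] with n g2 g3 g4 g1
    obtain ⟨-, -, s1, -, -⟩ := hsc n g2
    have h2 : (n : ℝ) ^ (1 / 2 + a / 2) ≤ c₁ * wth P β h ω (fun v => J μ (2 * h) (v / 2)) n := by
      calc (n : ℝ) ^ (1 / 2 + a / 2) ≤ c₁ * b * (n : ℝ) ^ (1 / 2 + a) := g4
        _ ≤ c₁ * b * wd μ (2 * h) n := mul_le_mul_of_nonneg_left g1 (by positivity)
        _ = c₁ * (b * wd μ (2 * h) n) := by ring
        _ ≤ _ := mul_le_mul_of_nonneg_left s1 hc₁.le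
    exact le_trans (integral_mono (forceP_integrable hmeas β h n _) (forceP_integrable hmeas β h n _)
      fun x => forceP_mono _ _ _ _ fun s hs => le_trans hs h2) (hE n g3)

end Pool.Agent.W_7d29a1_HM
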